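import Mathlib

set_option autoImplicit false

namespace Pool.Agent.Helper798.UPoset

/-- Embedding of posets with levels and operations: respects the order both ways, the
levels, and the operations with index below `k`. -/
structure IsEmb {Λ X Y : Type} [PartialOrder X] [PartialOrder Y] (k : ℕ)
    (r : X → Λ) (s : ℕ → X → X) (r' : Y → Λ) (s' : ℕ → Y → Y) (f : X → Y) : Prop where
  le : ∀ x y, f x ≤ f y ↔ x ≤ y
  lev : ∀ x, r' (f x) = r x
  eqv : ∀ i < k, ∀ x, f (s i x) = s' i (f x)

/-- Levels are strictly monotone for `L`, the operations below `k` are order embeddings and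
keep levels. -/
structure Valid {Λ X : Type} [PartialOrder X] (L : Λ → Λ → Prop) (k : ℕ)
    (r : X → Λ) (s : ℕ → X → X) : Prop where
  mono : ∀ x y, x < y → L (r x) (r y)
  le : ∀ i < k, ∀ x y, s i x ≤ s i y ↔ x ≤ y
  lev : ∀ i < k, ∀ x, r (s i x) = r x

theorem IsEmb.inj {Λ X Y : Type} [PartialOrder X] [PartialOrder Y] {k : ℕ}
    {r : X → Λ} {s : ℕ → X → X} {r' : Y → Λ} {s' : ℕ → Y → Y} {f : X → Y}
    (h : IsEmb k r s r' s' f) : Function.Injective f := by
  intro x y hxy
  apply le_antisymm
  · rw [← h.le]; rw [hxy]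
  · rw [← h.le]; rw [hxy]

theorem IsEmb.lt {Λ X Y : Type} [PartialOrder X] [PartialOrder Y] {k : ℕ}
    {r : X → Λ} {s : ℕ → X → X} {r' : Y → Λ} {s' : ℕ → Y → Y} {f : X → Y}
    (h : IsEmb k r s r' s' f) (x y : X) : f x < f y ↔ x < y := by
  rw [lt_iff_le_not_ge, lt_iff_le_not_ge, h.le, h.le]

theorem IsEmb.comp {Λ X Y Z : Type} [PartialOrder X] [PartialOrder Y] [PartialOrder Z] {k : ℕ}
    {r : X → Λ} {s : ℕ → X → X} {r' : Y → Λ} {s' : ℕ → Y → Y} {r'' : Z → Λ} {s'' : ℕ → Z → Z}
    {g : Y → Z} {f : X → Y}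
    (hg : IsEmb k r' s' r'' s'' g) (h : IsEmb k r s r' s' f) :
    IsEmb k r s r'' s'' (g ∘ f) where
  le x y := by simp [hg.le, h.le]
  lev x := by simp [hg.lev, h.lev]
  eqv i hi x := by simp [h.eqv i hi, hg.eqv i hi]

theorem IsEmb.mono_k {Λ X Y : Type} [PartialOrder X] [PartialOrder Y] {k m : ℕ}
    {r : X → Λ} {s : ℕ → X → X} {r' : Y → Λ} {s' : ℕ → Y → Y} {f : X → Y}
    (h : IsEmb k r s r' s' f) (hm : m ≤ k) : IsEmb m r s r' s' f where
  le := h.le
  lev := h.lev
  eqv i hi x := h.eqv i (lt_of_lt_of_le hi hm) x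

theorem Valid.mono_k {Λ X : Type} [PartialOrder X] {L : Λ → Λ → Prop} {k m : ℕ}
    {r : X → Λ} {s : ℕ → X → X} (h : Valid L k r s) (hm : m ≤ k) : Valid L m r s where
  mono := h.mono
  le i hi x y := h.le i (lt_of_lt_of_le hi hm) x y
  lev i hi x := h.lev i (lt_of_lt_of_le hi hm) x

/-- Disjoint union used for the amalgam. -/
inductive W (Z B : Type) : Type
  | l (z : Z) : W Z B
  | r (b : B) : W Z B

instance {Z B : Type} [Finite Z] [Finite B] : Finite (W Z B) := by
  apply Finite.of_surjective (fun x : Z ⊕ B => (Sum.elim W.l W.r x : W Z B))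
  intro w
  cases w with
  | l z => exact ⟨Sum.inl z, rfl⟩
  | r b => exact ⟨Sum.inr b, rfl⟩

/-- The order relation of the free amalgam. -/
def amLe {A B Z : Type} [PartialOrder B] [PartialOrder Z] (ι : A → B) (j : A → Z) :
    W Z B → W Z B → Prop
  | W.l z, W.l z' => z ≤ z'
  | W.r b, W.r b' => b ≤ b'
  | W.l z, W.r b => ∃ a, z ≤ j a ∧ ι a ≤ b
  | W.r b, W.l z => ∃ a, b ≤ ι a ∧ j a ≤ z

/-- Free amalgamation of finite posets with levels and operations. -/
theorem amalg {Λ A B Z : Type} [Finite B] [Finite Z] [Finite A]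
    [PartialOrder A] [PartialOrder B] [PartialOrder Z]
    (L : Λ → Λ → Prop) (hL : ∀ a b c, L a b → L b c → L a c) (k : ℕ)
    {rA : A → Λ} {sA : ℕ → A → A} {rB : B → Λ} {sB : ℕ → B → B} {rZ : Z → Λ} {sZ : ℕ → Z → Z}
    (hB : Valid L k rB sB) (hZ : Valid L k rZ sZ)
    {ι : A → B} {j : A → Z} (hι : IsEmb k rA sA rB sB ι) (hj : IsEmb k rA sA rZ sZ j) :
    ∃ (C : Type) (_ : Finite C) (_ : PartialOrder C) (rC : C → Λ) (sC : ℕ → C → C)
      (iZ : Z → C) (iB : B → C),
      Valid L k rC sC ∧ IsEmb k rZ sZ rC sC iZ ∧ IsEmb k rB sB rC sC iB ∧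
      (∀ a, iB (ι a) = iZ (j a)) ∧
      (∀ z b, iZ z ≤ iB b → ∃ a, z ≤ j a ∧ ι a ≤ b) ∧
      (∀ z b, iB b ≤ iZ z → ∃ a, b ≤ ι a ∧ j a ≤ z) := by
  classical
  have hij : ∀ a a', ι a ≤ ι a' ↔ j a ≤ j a' := fun a a' => by rw [hι.le, hj.le]
  let P : Preorder (W Z B) :=
    { le := amLe ι j
      le_refl := by
        intro w
        cases w with
        | l z => exact le_refl z
        | r b => exact le_refl b
      le_trans := by
        intro u v w huv hvw
        cases u with
        | l z =>
          cases v with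
          | l z' =>
            cases w with
            | l z'' => exact le_trans (α := Z) huv hvw
            | r b =>
              obtain ⟨a, h1, h2⟩ := hvw
              exact ⟨a, le_trans (α := Z) huv h1, h2⟩
          | r b =>
            obtain ⟨a, h1, h2⟩ := huv
            cases w with
            | l z'' =>
              obtain ⟨a', h3, h4⟩ := hvw
              have : j a ≤ j a' := (hij a a').1 (le_trans h2 h3)
              exact le_trans h1 (le_trans this h4)
            | r b' => exact ⟨a, h1, le_trans (α := B) h2 hvw⟩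
        | r b =>
          cases v with
          | l z =>
            obtain ⟨a, h1, h2⟩ := huv
            cases w with
            | l z'' => exact ⟨a, h1, le_trans (α := Z) h2 hvw⟩
            | r b' =>
              obtain ⟨a', h3, h4⟩ := hvw
              have : ι a ≤ ι a' := (hij a a').2 (le_trans h2 h3)
              exact le_trans h1 (le_trans this h4)
          | r b' =>
            cases w with
            | l z =>
              obtain ⟨a, h1, h2⟩ := hvw
              exact ⟨a, le_trans (α := B) huv h1, h2⟩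
            | r b'' => exact le_trans (α := B) huv hvw }
  -- the levels on `W`
  let rW : W Z B → Λ := fun w => match w with
    | W.l z => rZ z
    | W.r b => rB b
  let sW : ℕ → W Z B → W Z B := fun i w => match w with
    | W.l z => W.l (sZ i z)
    | W.r b => W.r (sB i b)
  have hsurj : ∀ i < k, Function.Surjective (sA i) := by
    intro i hi
    apply Finite.surjective_of_injective
    intro x y hxy
    apply hι.inj
    have h1 := hι.eqv i hi x
    have h2 := hι.eqv i hi y
    rw [hxy] at h1
    have h3 : sB i (ι x) = sB i (ι y) := by rw [← h1, ← h2]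
    apply le_antisymm
    · rw [← hB.le i hi, h3]
    · rw [← hB.le i hi, h3]
  have hsle : ∀ i < k, ∀ u v : W Z B, sW i u ≤ sW i v ↔ u ≤ v := by
    intro i hi u v
    cases u with
    | l z =>
      cases v with
      | l z' => exact hZ.le i hi z z'
      | r b =>
        constructor
        · rintro ⟨a, h1, h2⟩
          obtain ⟨a', rfl⟩ := hsurj i hi a
          rw [hj.eqv i hi] at h1
          rw [hι.eqv i hi] at h2
          exact ⟨a', (hZ.le i hi _ _).1 h1, (hB.le i hi _ _).1 h2⟩
        · rintro ⟨a, h1, h2⟩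
          refine ⟨sA i a, ?_, ?_⟩
          · rw [hj.eqv i hi]; exact (hZ.le i hi _ _).2 h1
          · rw [hι.eqv i hi]; exact (hB.le i hi _ _).2 h2
    | r b =>
      cases v with
      | l z =>
        constructor
        · rintro ⟨a, h1, h2⟩
          obtain ⟨a', rfl⟩ := hsurj i hi a
          rw [hj.eqv i hi] at h2
          rw [hι.eqv i hi] at h1
          exact ⟨a', (hB.le i hi _ _).1 h1, (hZ.le i hi _ _).1 h2⟩
        · rintro ⟨a, h1, h2⟩
          refine ⟨sA i a, ?_, ?_⟩
          · rw [hι.eqv i hi]; exact (hB.le i hi _ _).2 h1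
          · rw [hj.eqv i hi]; exact (hZ.le i hi _ _).2 h2
      | r b' => exact hB.le i hi b b'
  have hrlev : ∀ i < k, ∀ u : W Z B, rW (sW i u) = rW u := by
    intro i hi u
    cases u with
    | l z => exact hZ.lev i hi z
    | r b => exact hB.lev i hi b
  -- levels of equivalent elements agree
  have key : ∀ u v : W Z B, u ≤ v → v ≤ u → rW u = rW v := by
    intro u v huv hvu
    cases u with
    | l z =>
      cases v with
      | l z' => exact congrArg rZ (le_antisymm (α := Z) huv hvu)
      | r b =>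
        obtain ⟨a, h1, h2⟩ := huv
        obtain ⟨a', h3, h4⟩ := hvu
        have e1 : j a ≤ j a' := (hij a a').1 (le_trans h2 h3)
        have e2 : z = j a := le_antisymm h1 (le_trans e1 h4)
        have e3 : ι a' ≤ ι a := (hij a' a).2 (le_trans h4 h1)
        have e4 : b = ι a := le_antisymm (le_trans h3 e3) h2
        show rZ z = rB b
        rw [e2, e4, hj.lev, hι.lev]
    | r b =>
      cases v with
      | l z =>
        obtain ⟨a, h1, h2⟩ := hvu
        obtain ⟨a', h3, h4⟩ := huv
        have e1 : j a ≤ j a' := (hij a a').1 (le_trans h2 h3)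
        have e2 : z = j a := le_antisymm h1 (le_trans e1 h4)
        have e3 : ι a' ≤ ι a := (hij a' a).2 (le_trans h4 h1)
        have e4 : b = ι a := le_antisymm (le_trans h3 e3) h2
        show rB b = rZ z
        rw [e2, e4, hj.lev, hι.lev]
      | r b' => exact congrArg rB (le_antisymm (α := B) huv hvu)
  have hmonoW : ∀ u v : W Z B, u ≤ v → ¬ v ≤ u → L (rW u) (rW v) := by
    intro u v huv hvu
    cases u with
    | l z =>
      cases v with
      | l z' => exact hZ.mono z z' (lt_of_le_not_ge huv hvu)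
      | r b =>
        obtain ⟨a, h1, h2⟩ := huv
        show L (rZ z) (rB b)
        rcases eq_or_lt_of_le h1 with e1 | e1
        · rcases eq_or_lt_of_le h2 with e2 | e2
          · exact absurd ⟨a, le_of_eq e2.symm, le_of_eq e1.symm⟩ hvu
          · rw [e1, hj.lev, ← hι.lev]; exact hB.mono _ _ e2
        · have q1 := hZ.mono _ _ e1
          rcases eq_or_lt_of_le h2 with e2 | e2
          · rw [← e2, hι.lev, ← hj.lev]; exact q1
          · have q2 := hB.mono _ _ e2
            rw [hι.lev, ← hj.lev] at q2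
            exact hL _ _ _ q1 q2
    | r b =>
      cases v with
      | l z =>
        obtain ⟨a, h1, h2⟩ := huv
        show L (rB b) (rZ z)
        rcases eq_or_lt_of_le h1 with e1 | e1
        · rcases eq_or_lt_of_le h2 with e2 | e2
          · exact absurd ⟨a, le_of_eq e2.symm, le_of_eq e1.symm⟩ hvu
          · rw [e1, hι.lev, ← hj.lev]; exact hZ.mono _ _ e2
        · have q1 := hB.mono _ _ e1
          rcases eq_or_lt_of_le h2 with e2 | e2
          · rw [← e2, hj.lev, ← hι.lev]; exact q1
          · have q2 := hZ.mono _ _ e2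
            rw [hj.lev, ← hι.lev] at q2
            exact hL _ _ _ q1 q2
      | r b' => exact hB.mono b b' (lt_of_le_not_ge huv hvu)
  let C := Antisymmetrization (W Z B) (· ≤ ·)
  let mk : W Z B → C := fun w => toAntisymmetrization (· ≤ ·) w
  have hmk : ∀ u v, mk u ≤ mk v ↔ u ≤ v := fun u v =>
    toAntisymmetrization_le_toAntisymmetrization_iff
  have hmksurj : ∀ c : C, ∃ w, mk w = c := fun c => Quotient.exists_rep c
  let rC : C → Λ := Quotient.lift rW (fun u v h => key u v h.1 h.2)
  let lf : (i : ℕ) → i < k → C → C := fun i h =>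
      Quotient.map (sW i) (fun u v huv => ⟨(hsle i h u v).2 huv.1, (hsle i h v u).2 huv.2⟩)
  let sC : ℕ → C → C := fun i => if h : i < k then lf i h else id
  have hrC : ∀ w, rC (mk w) = rW w := fun w => rfl
  have hsC : ∀ i < k, ∀ w, sC i (mk w) = mk (sW i w) := by
    intro i hi w
    have e : sC i = lf i hi := dif_pos hi
    rw [e]
    rfl
  refine ⟨C, ?_, inferInstance, rC, sC, fun z => mk (W.l z), fun b => mk (W.r b), ?_, ?_, ?_, ?_, ?_, ?_⟩
  · exact Finite.of_surjective mk hmksurj
  · refine ⟨?_, ?_, ?_⟩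
    · intro x y hxy
      obtain ⟨u, rfl⟩ := hmksurj x
      obtain ⟨v, rfl⟩ := hmksurj y
      rw [lt_iff_le_not_ge, hmk, hmk] at hxy
      rw [hrC, hrC]
      exact hmonoW u v hxy.1 hxy.2
    · intro i hi x y
      obtain ⟨u, rfl⟩ := hmksurj x
      obtain ⟨v, rfl⟩ := hmksurj y
      rw [hsC i hi, hsC i hi, hmk, hmk]
      exact hsle i hi u v
    · intro i hi x
      obtain ⟨u, rfl⟩ := hmksurj x
      rw [hsC i hi, hrC, hrC]
      exact hrlev i hi u
  · refine ⟨?_, ?_, ?_⟩
    · intro x y
      rw [hmk]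
      exact Iff.rfl
    · intro x; exact rfl
    · intro i hi x
      rw [hsC i hi]
  · refine ⟨?_, ?_, ?_⟩
    · intro x y
      rw [hmk]
      exact Iff.rfl
    · intro x; exact rfl
    · intro i hi x
      rw [hsC i hi]
  · intro a
    apply le_antisymm
    · rw [hmk]; exact ⟨a, le_refl _, le_refl _⟩
    · rw [hmk]; exact ⟨a, le_refl _, le_refl _⟩
  · intro z b h
    rw [hmk] at h
    exact h
  · intro z b h
    rw [hmk] at h
    exact h

end Pool.Agent.Helper798.UPoset
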