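import Mathlib
import Pool.Agent.Helper798.UPoset.Amalg

set_option autoImplicit false

namespace Pool.Agent.Helper798.UPoset

theorem rs {P : Type} [Preorder P] (p : P) {I : Type} [Countable I] (D : I → Set P)
    (hD : ∀ i, ∀ q : P, ∃ q' ∈ D i, q ≤ q') :
    ∃ s : ℕ → P, Monotone s ∧ s 0 = p ∧ ∀ i, ∃ n, s n ∈ D i := by
  classical
  letI : Encodable I := Encodable.ofCountable I
  let D' : I → Order.Cofinal P := fun i => ⟨D i, fun q => by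
    obtain ⟨q', h1, h2⟩ := hD i q
    exact ⟨q', h1, h2⟩⟩
  exact ⟨Order.sequenceOfCofinals p D', Order.sequenceOfCofinals.monotone p D', rfl,
    fun i => ⟨_, Order.sequenceOfCofinals.encode_mem p D' i⟩⟩

/-- Generic levels and generic `k`-tuples of automorphisms with finite orbits. -/
structure Gen {Λ Ω : Type} [PartialOrder Ω] (L : Λ → Λ → Prop) (k : ℕ) (r : Ω → Λ)
    (c : ℕ → (Ω ≃o Ω)) : Prop where
  mono : ∀ x y, x < y → L (r x) (r y)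
  lev : ∀ i < k, ∀ x, r (c i x) = r x
  fin : ∀ Y : Finset Ω, ∃ Z : Finset Ω, Y ⊆ Z ∧ ∀ i < k, ∀ z ∈ Z, c i z ∈ Z
  ext : ∀ (A B : Type) [Finite A] [Finite B] [PartialOrder A] [PartialOrder B]
    (rA : A → Λ) (sA : ℕ → A → A) (rB : B → Λ) (sB : ℕ → B → B), Valid L k rB sB →
    ∀ ι : A → B, IsEmb k rA sA rB sB ι → ∀ j : A → Ω, IsEmb k rA sA r (fun i => ⇑(c i)) j →
    ∃ e : B → Ω, IsEmb k rB sB r (fun i => ⇑(c i)) e ∧ ∀ a, e (ι a) = j a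

/-- Finite pieces of isomorphisms. -/
structure PI {Λ Ω : Type} [PartialOrder Ω] (k : ℕ) (r : Ω → Λ) (c : ℕ → (Ω ≃o Ω))
    (r' : Ω → Λ) (c' : ℕ → (Ω ≃o Ω)) (Γ : Finset (Ω × Ω)) : Prop where
  le : ∀ p ∈ Γ, ∀ q ∈ Γ, (p.2 ≤ q.2 ↔ p.1 ≤ q.1)
  lev : ∀ p ∈ Γ, r' p.2 = r p.1
  cl : ∀ i < k, ∀ p ∈ Γ, (c i p.1, c' i p.2) ∈ Γ

theorem PI.swap {Λ Ω : Type} [PartialOrder Ω] [DecidableEq Ω] {k : ℕ} {r : Ω → Λ}
    {c : ℕ → (Ω ≃o Ω)} {r' : Ω → Λ} {c' : ℕ → (Ω ≃o Ω)} {Γ : Finset (Ω × Ω)}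
    (h : PI k r c r' c' Γ) : PI k r' c' r c (Γ.image Prod.swap) where
  le := by
    intro p hp q hq
    rw [Finset.mem_image] at hp hq
    obtain ⟨p, hp, rfl⟩ := hp
    obtain ⟨q, hq, rfl⟩ := hq
    exact (h.le p hp q hq).symm
  lev := by
    intro p hp
    rw [Finset.mem_image] at hp
    obtain ⟨p, hp, rfl⟩ := hp
    exact (h.lev p hp).symm
  cl := by
    intro i hi p hp
    rw [Finset.mem_image] at hp ⊢
    obtain ⟨p, hp, rfl⟩ := hp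
    exact ⟨_, h.cl i hi p hp, rfl⟩

theorem PI.extend {Λ Ω : Type} [PartialOrder Ω] {L : Λ → Λ → Prop} {k : ℕ} {r : Ω → Λ}
    {c : ℕ → (Ω ≃o Ω)} {r' : Ω → Λ} {c' : ℕ → (Ω ≃o Ω)} (hg : Gen L k r c) (hg' : Gen L k r' c')
    {Γ : Finset (Ω × Ω)} (h : PI k r c r' c' Γ) (x : Ω) :
    ∃ Γ' : Finset (Ω × Ω), Γ ⊆ Γ' ∧ PI k r c r' c' Γ' ∧ ∃ y, (x, y) ∈ Γ' := by
  classical
  obtain ⟨Z, hZ1, hZ2⟩ := hg.fin (insert x (Γ.image Prod.fst))
  have hinj : Function.Injective (fun p : ↥Γ => p.1.1) := by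
    rintro ⟨p, hp⟩ ⟨q, hq⟩ hpq
    apply Subtype.ext
    have h1 : p.1 = q.1 := hpq
    apply Prod.ext h1
    apply le_antisymm
    · rw [h.le p hp q hq]; exact h1.le
    · rw [h.le q hq p hp]; exact h1.ge
  letI : PartialOrder ↥Γ := PartialOrder.lift (fun p : ↥Γ => p.1.1) hinj
  let sA : ℕ → ↥Γ → ↥Γ := fun i p =>
    if hi : i < k then ⟨(c i p.1.1, c' i p.1.2), h.cl i hi p.1 p.2⟩ else p
  let sB : ℕ → ↥Z → ↥Z := fun i z =>
    if hi : i < k then ⟨c i z.1, hZ2 i hi z.1 z.2⟩ else z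
  have hsA : ∀ i < k, ∀ p, (sA i p).1 = (c i p.1.1, c' i p.1.2) := by
    intro i hi p
    simp only [sA, dif_pos hi]
  have hsB : ∀ i < k, ∀ p, (sB i p).1 = c i p.1 := by
    intro i hi p
    simp only [sB, dif_pos hi]
  let rA : ↥Γ → Λ := fun p => r p.1.1
  let rB : ↥Z → Λ := fun z => r z.1
  let ι : ↥Γ → ↥Z := fun p => ⟨p.1.1, hZ1 (Finset.mem_insert_of_mem
    (Finset.mem_image_of_mem Prod.fst p.2))⟩
  let j : ↥Γ → Ω := fun p => p.1.2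
  have hV : Valid L k rB sB := by
    refine ⟨?_, ?_, ?_⟩
    · intro u v huv
      exact hg.mono u.1 v.1 huv
    · intro i hi u v
      rw [← Subtype.coe_le_coe, hsB i hi, hsB i hi, (c i).le_iff_le, Subtype.coe_le_coe]
    · intro i hi u
      show r (sB i u).1 = r u.1
      rw [hsB i hi]
      exact hg.lev i hi u.1
  have hι : IsEmb k rA sA rB sB ι := by
    refine ⟨?_, ?_, ?_⟩
    · intro p q; exact Iff.rfl
    · intro p; rfl
    · intro i hi p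
      apply Subtype.ext
      rw [hsB i hi]
      show (sA i p).1.1 = c i p.1.1
      rw [hsA i hi]
  have hj : IsEmb k rA sA r' (fun i => ⇑(c' i)) j := by
    refine ⟨?_, ?_, ?_⟩
    · intro p q; exact h.le p.1 p.2 q.1 q.2
    · intro p; exact h.lev p.1 p.2
    · intro i hi p
      show (sA i p).1.2 = c' i p.1.2
      rw [hsA i hi]
  obtain ⟨e, he, hej⟩ := hg'.ext ↥Γ ↥Z rA sA rB sB hV ι hι j hj
  refine ⟨Finset.univ.image (fun z : ↥Z => (z.1, e z)), ?_, ⟨?_, ?_, ?_⟩, ?_⟩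
  · intro p hp
    rw [Finset.mem_image]
    refine ⟨ι ⟨p, hp⟩, Finset.mem_univ _, ?_⟩
    rw [hej]
  · intro p hp q hq
    rw [Finset.mem_image] at hp hq
    obtain ⟨z, _, rfl⟩ := hp
    obtain ⟨w, _, rfl⟩ := hq
    exact he.le z w
  · intro p hp
    rw [Finset.mem_image] at hp
    obtain ⟨z, _, rfl⟩ := hp
    exact he.lev z
  · intro i hi p hp
    rw [Finset.mem_image] at hp ⊢
    obtain ⟨z, _, rfl⟩ := hp
    refine ⟨sB i z, Finset.mem_univ _, ?_⟩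
    apply Prod.ext
    · exact hsB i hi z
    · exact he.eqv i hi z
  · have hx : x ∈ Z := hZ1 (Finset.mem_insert_self _ _)
    exact ⟨e ⟨x, hx⟩, Finset.mem_image.2 ⟨⟨x, hx⟩, Finset.mem_univ _, rfl⟩⟩

/-- Back and forth. -/
theorem backforth {Λ Ω : Type} [PartialOrder Ω] [Countable Ω] {L : Λ → Λ → Prop} {k : ℕ}
    {r : Ω → Λ} {c : ℕ → (Ω ≃o Ω)} {r' : Ω → Λ} {c' : ℕ → (Ω ≃o Ω)}
    (hg : Gen L k r c) (hg' : Gen L k r' c')
    {Γ : Finset (Ω × Ω)} (h : PI k r c r' c' Γ) :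
    ∃ f : Ω ≃o Ω, (∀ p ∈ Γ, f p.1 = p.2) ∧ (∀ x, r' (f x) = r x) ∧
      ∀ i < k, ∀ x, f (c i x) = c' i (f x) := by
  classical
  let P := {Γ : Finset (Ω × Ω) // PI k r c r' c' Γ}
  let D : Ω ⊕ Ω → Set P := fun x => match x with
    | Sum.inl x => {G | ∃ y, (x, y) ∈ G.1}
    | Sum.inr y => {G | ∃ x, (x, y) ∈ G.1}
  have hD : ∀ i, ∀ q : P, ∃ q' ∈ D i, q ≤ q' := by
    intro i q
    rcases i with x | y
    · obtain ⟨Γ', h1, h2, h3⟩ := PI.extend hg hg' q.2 x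
      exact ⟨⟨Γ', h2⟩, h3, h1⟩
    · obtain ⟨Γ', h1, h2, y', h3⟩ := PI.extend hg' hg q.2.swap y
      refine ⟨⟨Γ'.image Prod.swap, h2.swap⟩, ⟨y', ?_⟩, ?_⟩
      · exact Finset.mem_image.2 ⟨_, h3, rfl⟩
      · show q.1 ⊆ Γ'.image Prod.swap
        intro p hp
        rw [Finset.mem_image]
        exact ⟨p.swap, h1 (Finset.mem_image_of_mem _ hp), Prod.swap_swap p⟩
  obtain ⟨s, hs, hs0, hsD⟩ := rs (⟨Γ, h⟩ : P) D hD
  have hpair : ∀ n m, ∀ p ∈ (s n).1, ∀ q ∈ (s m).1, ∃ N, p ∈ (s N).1 ∧ q ∈ (s N).1 := by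
    intro n m p hp q hq
    refine ⟨max n m, ?_, ?_⟩
    · exact (hs (le_max_left n m) : (s n).1 ⊆ (s (max n m)).1) hp
    · exact (hs (le_max_right n m) : (s m).1 ⊆ (s (max n m)).1) hq
  have htot : ∀ x, ∃ y, ∃ n, (x, y) ∈ (s n).1 := by
    intro x
    obtain ⟨n, y, hy⟩ := hsD (Sum.inl x)
    exact ⟨y, n, hy⟩
  choose f hf using htot
  have hle : ∀ n m, ∀ p ∈ (s n).1, ∀ q ∈ (s m).1, (p.2 ≤ q.2 ↔ p.1 ≤ q.1) := by
    intro n m p hp q hq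
    obtain ⟨N, h1, h2⟩ := hpair n m p hp q hq
    exact (s N).2.le p h1 q h2
  have hfun : ∀ n, ∀ p ∈ (s n).1, f p.1 = p.2 := by
    intro n p hp
    obtain ⟨m, hm⟩ := hf p.1
    apply le_antisymm
    · exact (hle m n _ hm p hp).2 le_rfl
    · exact (hle n m p hp _ hm).2 le_rfl
  have hfle : ∀ x y, f x ≤ f y ↔ x ≤ y := by
    intro x y
    obtain ⟨n, hn⟩ := hf x
    obtain ⟨m, hm⟩ := hf y
    exact hle n m _ hn _ hm
  have hsurj : Function.Surjective f := by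
    intro y
    obtain ⟨n, x, hx⟩ := hsD (Sum.inr y)
    exact ⟨x, hfun n _ hx⟩
  let F : Ω ≃o Ω := RelIso.ofSurjective (OrderEmbedding.ofMapLEIff f hfle) hsurj
  have hF : ∀ x, F x = f x := fun x => rfl
  refine ⟨F, ?_, ?_, ?_⟩
  · intro p hp
    rw [hF]
    apply hfun 0
    rw [hs0]
    exact hp
  · intro x
    rw [hF]
    obtain ⟨n, hn⟩ := hf x
    exact (s n).2.lev _ hn
  · intro i hi x
    rw [hF, hF]
    obtain ⟨n, hn⟩ := hf x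
    exact hfun n _ ((s n).2.cl i hi _ hn)

end Pool.Agent.Helper798.UPoset
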