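import Mathlib

set_option autoImplicit false

namespace Pool.Agent.Helper798.UPoset

open Finset

section comb

theorem fiber_equiv {X Y : Type} [Fintype X] [DecidableEq Y] (φ ψ : X → Y)
    (h : ∀ y, (univ.filter (fun x => φ x = y)).card = (univ.filter (fun x => ψ x = y)).card) :
    ∃ γ : X ≃ X, ∀ x, ψ (γ x) = φ x := by
  classical
  have h' : ∀ y, Fintype.card {x // φ x = y} = Fintype.card {x // ψ x = y} := by
    intro y
    rw [Fintype.card_subtype, Fintype.card_subtype]
    exact h y
  refine ⟨((Equiv.sigmaFiberEquiv φ).symm.trans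
    (Equiv.sigmaCongrRight (fun y => Fintype.equivOfCardEq (h' y)))).trans
    (Equiv.sigmaFiberEquiv ψ), ?_⟩
  intro x
  exact ((Fintype.equivOfCardEq (h' (φ x))) ⟨x, rfl⟩).2

theorem fiber_card {X A : Type} [Fintype X] [Fintype A] [DecidableEq A] (φ ψ : X → Finset A)
    (h : ∀ τ : Finset A, (univ.filter (fun x => τ ⊆ φ x)).card =
      (univ.filter (fun x => τ ⊆ ψ x)).card) (τ : Finset A) :
    (univ.filter (fun x => φ x = τ)).card = (univ.filter (fun x => ψ x = τ)).card := by
  classical
  have key : ∀ n : ℕ, ∀ τ : Finset A, Fintype.card A - τ.card ≤ n →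
      (univ.filter (fun x => φ x = τ)).card = (univ.filter (fun x => ψ x = τ)).card := by
    intro n
    induction n using Nat.strong_induction_on with
    | _ n ih =>
      intro τ hτ
      have dec : ∀ θ : X → Finset A, (univ.filter (fun x => τ ⊆ θ x)).card =
          (univ.filter (fun x => θ x = τ)).card +
          ∑ τ' ∈ univ.filter (fun τ' => τ ⊂ τ'), (univ.filter (fun x => θ x = τ')).card := by
        intro θ
        rw [Finset.card_eq_sum_card_fiberwise (f := θ) (s := univ.filter (fun x => τ ⊆ θ x))
          (t := univ.filter (fun τ' => τ ⊆ τ'))]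
        · have : (univ.filter (fun τ' : Finset A => τ ⊆ τ')) =
              insert τ (univ.filter (fun τ' => τ ⊂ τ')) := by
            ext τ'
            simp only [mem_filter, mem_univ, true_and, mem_insert]
            constructor
            · intro h1
              rcases eq_or_ssubset_of_subset h1 with h2 | h2
              · exact Or.inl h2.symm
              · exact Or.inr h2
            · rintro (h1 | h1)
              · rw [h1]
              · exact h1.1
          rw [this, Finset.sum_insert (by simp)]
          congr 1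
          · congr 1
            ext x
            simp only [mem_filter, mem_univ, true_and]
            constructor
            · rintro ⟨_, h2⟩; exact h2
            · intro h2; exact ⟨by rw [h2], h2⟩
          · apply Finset.sum_congr rfl
            intro τ' hτ'
            simp only [mem_filter, mem_univ, true_and] at hτ'
            congr 1
            ext x
            simp only [mem_filter, mem_univ, true_and]
            constructor
            · rintro ⟨_, h2⟩; exact h2
            · intro h2; exact ⟨by rw [h2]; exact hτ'.1, h2⟩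
        · intro x hx
          simpa using hx
      have e1 := dec φ
      have e2 := dec ψ
      rw [h τ, e2] at e1
      have e3 : ∑ τ' ∈ univ.filter (fun τ' => τ ⊂ τ'), (univ.filter (fun x => φ x = τ')).card =
          ∑ τ' ∈ univ.filter (fun τ' => τ ⊂ τ'), (univ.filter (fun x => ψ x = τ')).card := by
        apply Finset.sum_congr rfl
        intro τ' hτ'
        simp only [mem_filter, mem_univ, true_and] at hτ'
        have h1 := Finset.card_lt_card hτ'
        have h2 := Finset.card_le_univ τ'
        exact ih (Fintype.card A - τ'.card) (by omega) τ' le_rfl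
      rw [e3] at e1
      omega
  exact key _ τ le_rfl

end comb

section weights

variable {A : Type} [Fintype A] [DecidableEq A] [PartialOrder A] [DecidableRel ((· < ·) : A → A → Prop)]
  [DecidableRel ((· ≤ ·) : A → A → Prop)]

/-- Up-closed finite sets. -/
def IsUp (T : Finset A) : Prop := ∀ x ∈ T, ∀ y, x ≤ y → y ∈ T

/-- Minimal elements. -/
def mn (T : Finset A) : Finset A := T.filter (fun x => ∀ y ∈ T, ¬ y < x)

/-- Weight of the set of minimal elements. -/
def wt (g : A → ℕ) (T : Finset A) : ℕ := ∑ x ∈ mn T, g x

/-- Up-closure. -/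
def up (T : Finset A) : Finset A := univ.filter (fun y => ∃ x ∈ T, x ≤ y)

theorem exists_mn_le {T : Finset A} {x : A} (hx : x ∈ T) : ∃ y ∈ mn T, y ≤ x := by
  classical
  obtain ⟨y, hy1, hy2⟩ := Finset.exists_le_minimal T hx
  refine ⟨y, ?_, hy1⟩
  rw [mn, mem_filter]
  refine ⟨hy2.1, ?_⟩
  intro z hz hzy
  exact absurd (hy2.2 hz hzy.le) (not_le_of_gt hzy)

theorem mn_up (T : Finset A) : mn (up T) = mn T := by
  classical
  ext x
  simp only [mn, up, mem_filter, mem_univ, true_and]
  constructor
  · rintro ⟨⟨y, hy, hyx⟩, h⟩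
    have : y = x := by
      by_contra hne
      exact h y ⟨y, hy, le_rfl⟩ (lt_of_le_of_ne hyx hne)
    subst this
    exact ⟨hy, fun z hz => h z ⟨z, hz, le_rfl⟩⟩
  · rintro ⟨hx, h⟩
    refine ⟨⟨x, hx, le_rfl⟩, ?_⟩
    rintro z ⟨y, hy, hyz⟩ hzx
    exact h y hy (lt_of_le_of_lt hyz hzx)

theorem isUp_up (T : Finset A) : IsUp (up T) := by
  intro x hx y hxy
  simp only [up, mem_filter, mem_univ, true_and] at hx ⊢
  obtain ⟨z, hz, hzx⟩ := hx
  exact ⟨z, hz, hzx.trans hxy⟩

theorem subset_up (T : Finset A) : T ⊆ up T := by
  intro x hx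
  simp only [up, mem_filter, mem_univ, true_and]
  exact ⟨x, hx, le_rfl⟩

theorem up_subset {T U : Finset A} (hU : IsUp U) : up T ⊆ U ↔ T ⊆ U := by
  constructor
  · intro h; exact (subset_up T).trans h
  · intro h x hx
    simp only [up, mem_filter, mem_univ, true_and] at hx
    obtain ⟨z, hz, hzx⟩ := hx
    exact hU z (h hz) x hzx

/-- The weights increase strictly along inclusions of up-closed sets. -/
theorem wt_lt (ℓ : A → ℕ) (hℓ : ∀ x y, x < y → ℓ x < ℓ y) (hℓb : ∀ x, ℓ x ≤ Fintype.card A)
    (g : A → ℕ) (hg : ∀ x, g x = (Fintype.card A + 1) ^ (Fintype.card A - ℓ x))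
    {T U : Finset A} (hT : IsUp T) (hTU : T ⊂ U) : wt g T < wt g U := by
  classical
  obtain ⟨hsub, hns⟩ := hTU
  have hne : (U \ T).Nonempty := by
    rw [Finset.sdiff_nonempty]; exact hns
  obtain ⟨x0, hx0, hmin⟩ := Finset.exists_min_image (U \ T) ℓ hne
  rw [mem_sdiff] at hx0
  have hx0m : x0 ∈ mn U := by
    rw [mn, mem_filter]
    refine ⟨hx0.1, ?_⟩
    intro z hz hzx
    by_cases hzT : z ∈ T
    · exact hx0.2 (hT z hzT x0 hzx.le)
    · have := hmin z (mem_sdiff.2 ⟨hz, hzT⟩)
      have := hℓ z x0 hzx
      omega
  have hx0n : x0 ∉ mn T := by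
    intro h
    rw [mn, mem_filter] at h
    exact hx0.2 h.1
  have hlost : ∀ x ∈ mn T \ mn U, ℓ x0 < ℓ x := by
    intro x hx
    rw [mem_sdiff, mn, mem_filter, mn, mem_filter] at hx
    obtain ⟨⟨h1, h2⟩, h3⟩ := hx
    push Not at h3
    obtain ⟨y, hy, hyx⟩ := h3 (hsub h1)
    have hyT : y ∉ T := fun hyT => h2 y hyT hyx
    have := hmin y (mem_sdiff.2 ⟨hy, hyT⟩)
    have := hℓ y x hyx
    omega
  have e1 : wt g T = ∑ x ∈ mn T ∩ mn U, g x + ∑ x ∈ mn T \ mn U, g x := by
    rw [wt]
    exact (Finset.sum_inter_add_sum_sdiff (mn T) (mn U) g).symm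
  have e2 : wt g U = ∑ x ∈ mn U ∩ mn T, g x + ∑ x ∈ mn U \ mn T, g x := by
    rw [wt]
    exact (Finset.sum_inter_add_sum_sdiff (mn U) (mn T) g).symm
  have e3 : g x0 ≤ ∑ x ∈ mn U \ mn T, g x :=
    Finset.single_le_sum (f := g) (fun _ _ => Nat.zero_le _) (mem_sdiff.2 ⟨hx0m, hx0n⟩)
  have e4 : ∑ x ∈ mn T \ mn U, g x < g x0 := by
    rcases (mn T \ mn U).eq_empty_or_nonempty with h0 | h0
    · rw [h0, Finset.sum_empty, hg]
      positivity
    · obtain ⟨x1, hx1⟩ := h0
      have hl1 := hlost x1 hx1
      have hb1 := hℓb x1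
      have hb : ∀ x ∈ mn T \ mn U, g x ≤ (Fintype.card A + 1) ^ (Fintype.card A - ℓ x0 - 1) := by
        intro x hx
        rw [hg]
        apply Nat.pow_le_pow_right (by omega)
        have := hlost x hx
        omega
      calc ∑ x ∈ mn T \ mn U, g x
          ≤ (mn T \ mn U).card • (Fintype.card A + 1) ^ (Fintype.card A - ℓ x0 - 1) :=
            Finset.sum_le_card_nsmul _ _ _ hb
        _ ≤ Fintype.card A * (Fintype.card A + 1) ^ (Fintype.card A - ℓ x0 - 1) := by
            rw [smul_eq_mul]
            exact Nat.mul_le_mul_right _ (Finset.card_le_univ _)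
        _ < (Fintype.card A + 1) * (Fintype.card A + 1) ^ (Fintype.card A - ℓ x0 - 1) := by
            apply Nat.mul_lt_mul_of_pos_right (by omega)
            positivity
        _ = g x0 := by
            rw [hg, ← pow_succ']
            congr 1
            omega
  rw [e1, e2, Finset.inter_comm (mn U) (mn T)]
  omega

/-- The multiplicities of the atoms. -/
noncomputable def ev (f : Finset A → ℕ) (T : Finset A) : ℕ :=
  open Classical in
  if IsUp T then f T - ∑ U ∈ (univ.filter (fun U => T ⊂ U)).attach, ev f U.1 else 0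
termination_by Fintype.card A - T.card
decreasing_by
  have h1 := U.2
  simp only [mem_filter, mem_univ, true_and] at h1
  have h2 := Finset.card_lt_card h1
  have h3 := Finset.card_le_univ U.1
  omega

theorem ev_eq (f : Finset A → ℕ) (T : Finset A) (hT : IsUp T) :
    ev f T = f T - ∑ U ∈ univ.filter (fun U => T ⊂ U), ev f U := by
  classical
  rw [ev, if_pos hT]
  congr 1
  exact Finset.sum_attach (univ.filter (fun U => T ⊂ U)) (fun U => ev f U)

theorem ev_zero (f : Finset A → ℕ) (T : Finset A) (hT : ¬ IsUp T) : ev f T = 0 := by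
  rw [ev, if_neg hT]

theorem ev_le (f : Finset A → ℕ) (T : Finset A) (hT : IsUp T) : ev f T ≤ f T := by
  rw [ev_eq f T hT]; exact Nat.sub_le _ _

theorem sum_ev (f : Finset A → ℕ)
    (hf : ∀ T U, IsUp T → IsUp U → T ⊂ U → f U * 2 ^ Fintype.card A ≤ f T)
    (T : Finset A) (hT : IsUp T) :
    ∑ U ∈ univ.filter (fun U => T ⊆ U), ev f U = f T := by
  classical
  have h1 : (univ.filter (fun U : Finset A => T ⊆ U)) =
      insert T (univ.filter (fun U => T ⊂ U)) := by
    ext U
    simp only [mem_filter, mem_univ, true_and, mem_insert]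
    constructor
    · intro h1
      rcases eq_or_ssubset_of_subset h1 with h2 | h2
      · exact Or.inl h2.symm
      · exact Or.inr h2
    · rintro (h1 | h1)
      · rw [h1]
      · exact h1.1
  rw [h1, Finset.sum_insert (by simp), ev_eq f T hT]
  have h2 : ∑ U ∈ univ.filter (fun U => T ⊂ U), ev f U ≤ f T := by
    have h3 : ∀ U ∈ univ.filter (fun U => T ⊂ U), ev f U ≤ f T / 2 ^ Fintype.card A := by
      intro U hU
      simp only [mem_filter, mem_univ, true_and] at hU
      by_cases hUp : IsUp U
      · refine (ev_le f U hUp).trans ?_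
        rw [Nat.le_div_iff_mul_le (by positivity)]
        exact hf T U hT hUp hU
      · rw [ev_zero f U hUp]; exact Nat.zero_le _
    calc ∑ U ∈ univ.filter (fun U => T ⊂ U), ev f U
        ≤ (univ.filter (fun U => T ⊂ U)).card • (f T / 2 ^ Fintype.card A) :=
          Finset.sum_le_card_nsmul _ _ _ h3
      _ ≤ 2 ^ Fintype.card A * (f T / 2 ^ Fintype.card A) := by
          rw [smul_eq_mul]
          apply Nat.mul_le_mul_right
          calc (univ.filter (fun U => T ⊂ U)).card ≤ (univ : Finset (Finset A)).card :=
                Finset.card_le_univ _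
            _ = 2 ^ Fintype.card A := by
                rw [Finset.card_univ, Fintype.card_finset]
      _ ≤ f T := Nat.mul_div_le _ _
  omega

end weights

section main

/-- The order on pairs (set, level). -/
structure EE (X L : Type) where
  S : Finset X
  l : L

theorem EE.ext' {X L : Type} {a b : EE X L} (h1 : a.S = b.S) (h2 : a.l = b.l) : a = b := by
  cases a; cases b; simp_all

instance {X L : Type} [Finite X] [Finite L] : Finite (EE X L) := by
  apply Finite.of_injective (fun e : EE X L => (e.S, e.l))
  intro a b h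
  simp only [Prod.mk.injEq] at h
  exact EE.ext' h.1 h.2

instance {X L : Type} [LinearOrder L] : PartialOrder (EE X L) where
  le a b := a = b ∨ (a.l < b.l ∧ a.S ⊆ b.S)
  le_refl a := Or.inl rfl
  le_trans a b c := by
    rintro (h1 | h1) (h2 | h2)
    · left; rw [h1, h2]
    · right; rw [h1]; exact h2
    · right; rw [← h2]; exact h1
    · right; exact ⟨h1.1.trans h2.1, h1.2.trans h2.2⟩
  le_antisymm a b := by
    rintro (h1 | h1) (h2 | h2)
    · exact h1
    · exact h1
    · exact h2.symm
    · exact absurd (h1.1.trans h2.1) (lt_irrefl _)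

theorem EE.le_def {X L : Type} [LinearOrder L] (a b : EE X L) :
    a ≤ b ↔ a = b ∨ (a.l < b.l ∧ a.S ⊆ b.S) := Iff.rfl

/-- Extension property for isomorphisms between subposets of finite levelled posets. -/
theorem eppa {A : Type} [Finite A] [PartialOrder A] (ρ : A → ℚ)
    (hρ : ∀ x y, x < y → ρ x < ρ y) :
    ∃ (E : Type) (_ : Finite E) (_ : PartialOrder E) (ρE : E → ℚ) (ι : A → E),
      (∀ x y, x < y → ρE x < ρE y) ∧ (∀ x y, ι x ≤ ι y ↔ x ≤ y) ∧ (∀ x, ρE (ι x) = ρ x) ∧
      ∀ (D : Set A) (p : A → A), (∀ x ∈ D, ∀ y ∈ D, (p x ≤ p y ↔ x ≤ y)) →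
        (∀ x ∈ D, ρ (p x) = ρ x) →
        ∃ q : E → E, (∀ x y, q x ≤ q y ↔ x ≤ y) ∧ (∀ x, ρE (q x) = ρE x) ∧
          ∀ x ∈ D, q (ι x) = ι (p x) := by
  classical
  let _ := Fintype.ofFinite A
  let n := Fintype.card A
  let ℓ : A → ℕ := fun x => (univ.filter (fun y => ρ y < ρ x)).card
  have hℓρ : ∀ x y, ρ x < ρ y → ℓ x < ℓ y := by
    intro x y hxy
    apply Finset.card_lt_card
    refine ⟨?_, ?_⟩
    · intro z hz
      simp only [mem_filter, mem_univ, true_and] at hz ⊢
      exact hz.trans hxy
    · intro h
      have : x ∈ univ.filter (fun z => ρ z < ρ x) := h (by simp [hxy])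
      simp at this
  have hℓ : ∀ x y, x < y → ℓ x < ℓ y := fun x y hxy => hℓρ x y (hρ x y hxy)
  have hℓb : ∀ x, ℓ x ≤ Fintype.card A := fun x => Finset.card_le_univ _
  let g : A → ℕ := fun x => (Fintype.card A + 1) ^ (Fintype.card A - ℓ x)
  have hg : ∀ x, g x = (Fintype.card A + 1) ^ (Fintype.card A - ℓ x) := fun x => rfl
  let M : ℕ := ∑ x, g x
  have hM : ∀ T : Finset A, wt g T ≤ M := by
    intro T
    exact Finset.sum_le_sum_of_subset (Finset.subset_univ _)
  let f : Finset A → ℕ := fun T => (2 ^ n) ^ (M - wt g T)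
  have hf : ∀ T U, IsUp T → IsUp U → T ⊂ U → f U * 2 ^ Fintype.card A ≤ f T := by
    intro T U hT hU hTU
    have h1 := wt_lt ℓ hℓ hℓb g hg hT hTU
    have h2 := hM U
    show (2 ^ n) ^ (M - wt g U) * 2 ^ n ≤ (2 ^ n) ^ (M - wt g T)
    rw [← pow_succ]
    apply Nat.pow_le_pow_right (by positivity)
    omega
  let X := Σ T : Finset A, Fin (ev f T)
  let S : A → Finset X := fun x => univ.filter (fun ξ => x ∈ ξ.1)
  have hXup : ∀ ξ : X, IsUp ξ.1 := by
    intro ξ
    by_contra h
    have h1 := ev_zero f ξ.1 h
    have h2 := ξ.2.2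
    omega
  have cnt : ∀ τ : Finset A, (univ.filter (fun ξ : X => τ ⊆ ξ.1)).card = (2 ^ n) ^ (M - wt g τ) := by
    intro τ
    have e1 : (univ.filter (fun ξ : X => τ ⊆ ξ.1)).card =
        ∑ T ∈ univ.filter (fun T => τ ⊆ T), ev f T := by
      have : (univ.filter (fun ξ : X => τ ⊆ ξ.1)) =
          (univ.filter (fun T => τ ⊆ T)).sigma (fun T => (univ : Finset (Fin (ev f T)))) := by
        ext ξ
        rw [Finset.mem_sigma, mem_filter, mem_filter]
        simp
      rw [this, Finset.card_sigma]
      simp
    rw [e1]
    have e2 : ∑ T ∈ univ.filter (fun T => τ ⊆ T), ev f T =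
        ∑ T ∈ univ.filter (fun T => up τ ⊆ T), ev f T := by
      symm
      apply Finset.sum_subset
      · intro T hT
        simp only [mem_filter, mem_univ, true_and] at hT ⊢
        exact (subset_up τ).trans hT
      · intro T hT hT'
        simp only [mem_filter, mem_univ, true_and] at hT hT'
        apply ev_zero
        intro hup
        exact hT' ((up_subset hup).2 hT)
    rw [e2, sum_ev f hf (up τ) (isUp_up τ)]
    show (2 ^ n) ^ (M - wt g (up τ)) = (2 ^ n) ^ (M - wt g τ)
    rw [wt, mn_up, ← wt]
  have hSle : ∀ x y, S x ⊆ S y ↔ x ≤ y := by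
    intro x y
    constructor
    · intro h
      by_contra hxy
      have e1 : (univ.filter (fun ξ : X => ({x} : Finset A) ⊆ ξ.1)) =
          (univ.filter (fun ξ : X => ({x, y} : Finset A) ⊆ ξ.1)) := by
        ext ξ
        simp only [mem_filter, mem_univ, true_and, Finset.singleton_subset_iff,
          Finset.insert_subset_iff]
        constructor
        · intro h1
          refine ⟨h1, ?_⟩
          have : ξ ∈ S y := h (by simp [S, h1])
          simpa [S] using this
        · intro h1; exact h1.1
      have e2 := cnt {x}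
      rw [e1, cnt] at e2
      have hlt : wt g (up {x}) < wt g (up {x, y}) := by
        apply wt_lt ℓ hℓ hℓb g hg (isUp_up _)
        refine ⟨?_, ?_⟩
        · rw [up_subset (isUp_up _)]
          intro z hz
          apply subset_up
          simp only [mem_singleton] at hz
          simp [hz]
        · intro h1
          have : y ∈ up ({x} : Finset A) := h1 (subset_up _ (by simp))
          simp only [up, mem_filter, mem_univ, true_and, mem_singleton, exists_eq_left] at this
          exact hxy this
      rw [wt, wt, mn_up, mn_up, ← wt, ← wt] at hlt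
      have hb := hM {x, y}
      have hn : 1 < 2 ^ n := by
        apply Nat.one_lt_two_pow
        have : 0 < n := Fintype.card_pos_iff.2 ⟨x⟩
        omega
      have := Nat.pow_right_injective (show 2 ≤ 2 ^ n by omega) e2
      omega
    · intro hxy ξ hξ
      simp only [S, mem_filter, mem_univ, true_and] at hξ ⊢
      exact hXup ξ x hξ y hxy
  let L : Type := ↥(univ.image ρ : Finset ℚ)
  let ι : A → EE X L := fun x => ⟨S x, ⟨ρ x, Finset.mem_image_of_mem ρ (Finset.mem_univ x)⟩⟩
  refine ⟨EE X L, inferInstance, inferInstance, fun e => (e.l : ℚ), ι, ?_, ?_, ?_, ?_⟩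
  · intro x y hxy
    rcases hxy.le with h | h
    · exact absurd h hxy.ne
    · exact h.1
  · intro x y
    rw [EE.le_def]
    constructor
    · rintro (h | h)
      · rw [← hSle]
        have : (ι x).S = (ι y).S := by rw [h]
        exact this.le
      · exact (hSle x y).1 h.2
    · intro h
      rcases eq_or_lt_of_le h with h1 | h1
      · left; rw [h1]
      · right
        exact ⟨hρ x y h1, (hSle x y).2 h⟩
  · intro x; rfl
  · intro D p hp hlev
    let φ : X → Finset A := fun ξ => univ.filter (fun x => x ∈ D ∧ x ∈ ξ.1)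
    let ψ : X → Finset A := fun ξ => univ.filter (fun x => x ∈ D ∧ p x ∈ ξ.1)
    have hinj : ∀ x ∈ D, ∀ y ∈ D, p x = p y → x = y := by
      intro x hx y hy hxy
      apply le_antisymm
      · rw [← hp x hx y hy]; exact hxy.le
      · rw [← hp y hy x hx]; exact hxy.ge
    have hcard : ∀ τ : Finset A, (univ.filter (fun x => τ ⊆ φ x)).card =
        (univ.filter (fun x => τ ⊆ ψ x)).card := by
      intro τ
      by_cases hτ : ∀ x ∈ τ, x ∈ D
      · have e1 : (univ.filter (fun ξ => τ ⊆ φ ξ)) = univ.filter (fun ξ : X => τ ⊆ ξ.1) := by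
          ext ξ
          simp only [mem_filter, mem_univ, true_and, φ]
          constructor
          · intro h x hx
            have := h hx
            simp only [mem_filter, mem_univ, true_and] at this
            exact this.2
          · intro h x hx
            simp only [mem_filter, mem_univ, true_and]
            exact ⟨hτ x hx, h hx⟩
        have e2 : (univ.filter (fun ξ => τ ⊆ ψ ξ)) =
            univ.filter (fun ξ : X => τ.image p ⊆ ξ.1) := by
          ext ξ
          simp only [mem_filter, mem_univ, true_and, ψ]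
          constructor
          · intro h x hx
            rw [mem_image] at hx
            obtain ⟨y, hy, rfl⟩ := hx
            have := h hy
            simp only [mem_filter, mem_univ, true_and] at this
            exact this.2
          · intro h x hx
            simp only [mem_filter, mem_univ, true_and]
            exact ⟨hτ x hx, h (mem_image_of_mem p hx)⟩
        rw [e1, e2, cnt, cnt]
        congr 2
        -- weights agree
        have e3 : mn (τ.image p) = (mn τ).image p := by
          ext z
          simp only [mn, mem_filter, mem_image]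
          constructor
          · rintro ⟨⟨x, hx, rfl⟩, h⟩
            refine ⟨x, ⟨hx, ?_⟩, rfl⟩
            intro y hy hyx
            apply h (p y) ⟨y, hy, rfl⟩
            rw [lt_iff_le_not_ge, hp y (hτ y hy) x (hτ x hx), hp x (hτ x hx) y (hτ y hy),
              ← lt_iff_le_not_ge]
            exact hyx
          · rintro ⟨x, ⟨hx, h⟩, rfl⟩
            refine ⟨⟨x, hx, rfl⟩, ?_⟩
            rintro _ ⟨y, hy, rfl⟩ hyx
            apply h y hy
            rw [lt_iff_le_not_ge, hp y (hτ y hy) x (hτ x hx), hp x (hτ x hx) y (hτ y hy),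
              ← lt_iff_le_not_ge] at hyx
            exact hyx
        rw [wt, wt, e3, Finset.sum_image]
        · apply Finset.sum_congr rfl
          intro x hx
          have hx' : x ∈ D := hτ x (by rw [mn, mem_filter] at hx; exact hx.1)
          simp only [g, ℓ]
          rw [hlev x hx']
        · intro x hx y hy hxy
          have hx' : x ∈ D := hτ x (by rw [mem_coe, mn, mem_filter] at hx; exact hx.1)
          have hy' : y ∈ D := hτ y (by rw [mem_coe, mn, mem_filter] at hy; exact hy.1)
          exact hinj x hx' y hy' hxy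
      · push Not at hτ
        obtain ⟨x, hx, hxD⟩ := hτ
        have e1 : (univ.filter (fun ξ => τ ⊆ φ ξ)) = ∅ := by
          rw [Finset.filter_eq_empty_iff]
          intro ξ _ h
          have := h hx
          simp only [φ, mem_filter, mem_univ, true_and] at this
          exact hxD this.1
        have e2 : (univ.filter (fun ξ => τ ⊆ ψ ξ)) = ∅ := by
          rw [Finset.filter_eq_empty_iff]
          intro ξ _ h
          have := h hx
          simp only [ψ, mem_filter, mem_univ, true_and] at this
          exact hxD this.1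
        rw [e1, e2]
    obtain ⟨γ, hγ⟩ := fiber_equiv φ ψ (fun τ => fiber_card φ ψ hcard τ)
    refine ⟨fun e => ⟨e.S.map γ.toEmbedding, e.l⟩, ?_, ?_, ?_⟩
    · intro a b
      rw [EE.le_def, EE.le_def]
      simp only [Finset.map_subset_map]
      constructor
      · rintro (h | h)
        · left
          rw [EE.mk.injEq] at h
          exact EE.ext' (Finset.map_injective _ h.1) h.2
        · right; exact h
      · rintro (h | h)
        · left; rw [h]
        · right; exact h
    · intro a; rfl
    · intro x hx
      apply EE.ext'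
      · show (S x).map γ.toEmbedding = S (p x)
        ext ξ
        simp only [Finset.mem_map_equiv]
        have h1 := hγ (γ.symm ξ)
        rw [Equiv.apply_symm_apply] at h1
        have h2 : x ∈ ψ ξ ↔ x ∈ φ (γ.symm ξ) := by rw [h1]
        simp only [φ, ψ, S, mem_filter, mem_univ, true_and, hx] at h2 ⊢
        exact h2.symm
      · apply Subtype.ext
        exact (hlev x hx).symm

end main

end Pool.Agent.Helper798.UPoset
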