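import Mathlib

set_option autoImplicit false

namespace Pool.Agent.Helper798.UPoset

variable {Ω : Type} [PartialOrder Ω]

/-- Two automorphisms agree, together with their inverses, on a finite set. -/
def Agree (g h : Ω ≃o Ω) (Y : Finset Ω) : Prop :=
  (∀ y ∈ Y, g y = h y) ∧ ∀ y ∈ Y, g⁻¹ y = h⁻¹ y

theorem Agree.refl (g : Ω ≃o Ω) (Y : Finset Ω) : Agree g g Y := ⟨fun _ _ => rfl, fun _ _ => rfl⟩

theorem Agree.trans {g h u : Ω ≃o Ω} {Y : Finset Ω} (h1 : Agree g h Y) (h2 : Agree h u Y) :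
    Agree g u Y :=
  ⟨fun y hy => (h1.1 y hy).trans (h2.1 y hy), fun y hy => (h1.2 y hy).trans (h2.2 y hy)⟩

theorem Agree.mono {g h : Ω ≃o Ω} {Y Z : Finset Ω} (h1 : Agree g h Z) (h2 : Y ⊆ Z) :
    Agree g h Y :=
  ⟨fun y hy => h1.1 y (h2 hy), fun y hy => h1.2 y (h2 hy)⟩

/-- Open and dense in the closed subgroup `𝒢`. -/
structure OD (𝒢 : Subgroup (Ω ≃o Ω)) (U : Set (Ω ≃o Ω)) : Prop where
  op : ∀ g ∈ 𝒢, g ∈ U → ∃ Y : Finset Ω, ∀ g' ∈ 𝒢, Agree g g' Y → g' ∈ U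
  de : ∀ g ∈ 𝒢, ∀ Y : Finset Ω, ∃ g' ∈ 𝒢, Agree g g' Y ∧ g' ∈ U

theorem exists_limit (a : ℕ → (Ω ≃o Ω)) (Y : ℕ → Finset Ω) (hY : Monotone Y)
    (hcov : ∀ x, ∃ n, x ∈ Y n) (h : ∀ n, Agree (a n) (a (n + 1)) (Y n)) :
    ∃ g : Ω ≃o Ω, ∀ n, Agree (a n) g (Y n) := by
  have h1 : ∀ n m, n ≤ m → Agree (a n) (a m) (Y n) := by
    intro n m hnm
    induction m, hnm using Nat.le_induction with
    | base => exact Agree.refl _ _
    | succ m hm ih => exact ih.trans ((h m).mono (hY hm))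
  have h2 : ∀ n m x, x ∈ Y n → x ∈ Y m → a n x = a m x ∧ (a n)⁻¹ x = (a m)⁻¹ x := by
    intro n m x hn hm
    rcases le_total n m with hnm | hnm
    · exact ⟨(h1 n m hnm).1 x hn, (h1 n m hnm).2 x hn⟩
    · exact ⟨((h1 m n hnm).1 x hm).symm, ((h1 m n hnm).2 x hm).symm⟩
  choose N hN using hcov
  let F : Ω → Ω := fun x => a (N x) x
  let F' : Ω → Ω := fun x => (a (N x))⁻¹ x
  have hF : ∀ n x, x ∈ Y n → F x = a n x := fun n x hx => (h2 _ _ x (hN x) hx).1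
  have hF' : ∀ n x, x ∈ Y n → F' x = (a n)⁻¹ x := fun n x hx => (h2 _ _ x (hN x) hx).2
  have hbig : ∀ x y : Ω, ∃ n, x ∈ Y n ∧ y ∈ Y n := fun x y =>
    ⟨max (N x) (N y), hY (le_max_left _ _) (hN x), hY (le_max_right _ _) (hN y)⟩
  let g : Ω ≃o Ω :=
    { toFun := F
      invFun := F'
      left_inv := by
        intro x
        obtain ⟨n, hn1, hn2⟩ := hbig x (F x)
        rw [hF' n _ hn2, hF n _ hn1]
        exact (a n).symm_apply_apply x
      right_inv := by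
        intro x
        obtain ⟨n, hn1, hn2⟩ := hbig x (F' x)
        rw [hF n _ hn2, hF' n _ hn1]
        exact (a n).apply_symm_apply x
      map_rel_iff' := by
        intro x y
        obtain ⟨n, hn1, hn2⟩ := hbig x y
        show F x ≤ F y ↔ x ≤ y
        rw [hF n _ hn1, hF n _ hn2]
        exact (a n).map_rel_iff' }
  refine ⟨g, fun n => ⟨?_, ?_⟩⟩
  · intro y hy
    exact (hF n y hy).symm
  · intro y hy
    exact (hF' n y hy).symm

theorem tasks_step (𝒢 : Subgroup (Ω ≃o Ω)) (U : ℕ → Set (Ω ≃o Ω)) (hU : ∀ m, OD 𝒢 (U m))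
    {T : Type} [DecidableEq T] (tasks : Finset (T × T × ℕ)) (ht : ∀ τ ∈ tasks, τ.1 ≠ τ.2.1)
    (g : T → (Ω ≃o Ω)) (hg : ∀ t, g t ∈ 𝒢) (Y : Finset Ω) :
    ∃ g' : T → (Ω ≃o Ω), (∀ t, g' t ∈ 𝒢) ∧ (∀ t, Agree (g t) (g' t) Y) ∧
      ∃ Y' : Finset Ω, Y ⊆ Y' ∧ ∀ τ ∈ tasks, ∀ a ∈ 𝒢, ∀ b ∈ 𝒢,
        Agree (g' τ.1) a Y' → Agree (g' τ.2.1) b Y' → a⁻¹ * b ∈ U τ.2.2 := by
  classical
  induction tasks using Finset.induction_on with
  | empty =>
    refine ⟨g, hg, fun t => Agree.refl _ _, Y, subset_rfl, ?_⟩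
    intro τ hτ
    simp at hτ
  | insert τ rest hτ ih =>
    obtain ⟨g1, hg1, hag1, Y1, hY1, hrest⟩ := ih (fun τ' hτ' => ht τ' (Finset.mem_insert_of_mem hτ'))
    obtain ⟨t, t', m⟩ := τ
    have htt : t ≠ t' := ht (t, t', m) (Finset.mem_insert_self _ _)
    have hw : (g1 t)⁻¹ * g1 t' ∈ 𝒢 := 𝒢.mul_mem (𝒢.inv_mem (hg1 t)) (hg1 t')
    obtain ⟨w', hw'G, hw'a, hw'U⟩ := (hU m).de _ hw (Y1 ∪ Y1.image (⇑(g1 t)⁻¹))
    obtain ⟨V, hV⟩ := (hU m).op w' hw'G hw'U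
    let g2 : T → (Ω ≃o Ω) := Function.update g1 t' (g1 t * w')
    have hg2t : g2 t = g1 t := Function.update_of_ne htt _ _
    have hg2t' : g2 t' = g1 t * w' := Function.update_self _ _ _
    have hag2 : ∀ s, Agree (g1 s) (g2 s) Y1 := by
      intro s
      by_cases hs : s = t'
      · subst hs
        rw [hg2t']
        refine ⟨?_, ?_⟩
        · intro y hy
          have h1 := hw'a.1 y (Finset.mem_union_left _ hy)
          have h2 : g1 s y = g1 t (((g1 t)⁻¹ * g1 s) y) := by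
            rw [RelIso.mul_apply, RelIso.apply_inv_self]
          rw [h2, h1, RelIso.mul_apply]
        · intro y hy
          have h1 := hw'a.2 ((g1 t)⁻¹ y) (Finset.mem_union_right _ (Finset.mem_image_of_mem _ hy))
          rw [mul_inv_rev, inv_inv, RelIso.mul_apply, RelIso.apply_inv_self] at h1
          rw [h1, mul_inv_rev, RelIso.mul_apply]
      · have : g2 s = g1 s := Function.update_of_ne hs _ _
        rw [this]
        exact Agree.refl _ _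
    refine ⟨g2, ?_, ?_, Y1 ∪ V ∪ V.image (⇑(g1 t * w')) ∪ V.image (⇑(g1 t)), ?_, ?_⟩
    · intro s
      by_cases hs : s = t'
      · subst hs
        rw [hg2t']
        exact 𝒢.mul_mem (hg1 t) hw'G
      · have : g2 s = g1 s := Function.update_of_ne hs _ _
        rw [this]
        exact hg1 s
    · intro s
      exact (hag1 s).trans ((hag2 s).mono hY1)
    · intro y hy
      simp only [Finset.mem_union]
      exact Or.inl (Or.inl (Or.inl (hY1 hy)))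
    · intro τ' hτ' a ha b hb haa hbb
      rw [Finset.mem_insert] at hτ'
      rcases hτ' with h1 | h1
      · subst h1
        apply hV _ (𝒢.mul_mem (𝒢.inv_mem ha) hb)
        dsimp only at haa hbb
        rw [hg2t] at haa
        rw [hg2t'] at hbb
        refine ⟨?_, ?_⟩
        · intro v hv
          have e1 : (g1 t * w') v = b v := hbb.1 v (by
            simp only [Finset.mem_union]; exact Or.inl (Or.inl (Or.inr hv)))
          have e2 := haa.2 ((g1 t * w') v) (by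
            simp only [Finset.mem_union]
            exact Or.inl (Or.inr (Finset.mem_image_of_mem _ hv)))
          rw [RelIso.mul_apply a⁻¹ b, ← e1, ← e2, RelIso.mul_apply, RelIso.inv_apply_self]
        · intro v hv
          have e1 : g1 t v = a v := haa.1 v (by
            simp only [Finset.mem_union]; exact Or.inl (Or.inl (Or.inr hv)))
          have e2 := hbb.2 (g1 t v) (by
            simp only [Finset.mem_union]
            exact Or.inr (Finset.mem_image_of_mem _ hv))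
          rw [mul_inv_rev a⁻¹ b, inv_inv, RelIso.mul_apply b⁻¹ a, ← e1, ← e2, mul_inv_rev,
            RelIso.mul_apply, RelIso.inv_apply_self]
      · have hsub : Y1 ⊆ Y1 ∪ V ∪ V.image (⇑(g1 t * w')) ∪ V.image (⇑(g1 t)) := by
          intro y hy
          simp only [Finset.mem_union]
          exact Or.inl (Or.inl (Or.inl hy))
        exact hrest τ' h1 a ha b hb ((hag2 _).trans (haa.mono hsub))
          ((hag2 _).trans (hbb.mono hsub))

/-- A subgroup of index less than the continuum meets every countable intersection of open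
dense subsets of a closed subgroup. -/
theorem small_index_meets_nat [Countable Ω] (H 𝒢 : Subgroup (Ω ≃o Ω))
    (hH : Cardinal.mk ((Ω ≃o Ω) ⧸ H) < Cardinal.continuum)
    (h𝒢 : ∀ g : Ω ≃o Ω, (∀ x, ∃ g' ∈ 𝒢, g' x = g x) → g ∈ 𝒢)
    (U : ℕ → Set (Ω ≃o Ω)) (hU : ∀ m, OD 𝒢 (U m)) :
    ∃ g ∈ H, g ∈ 𝒢 ∧ ∀ m, g ∈ U m := by
  classical
  by_contra hcon
  push Not at hcon
  rcases isEmpty_or_nonempty Ω with hemp | hne
  · -- trivial case
    obtain ⟨m, hm⟩ := hcon 1 H.one_mem 𝒢.one_mem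
    obtain ⟨g', _, _, hg'⟩ := (hU m).de 1 𝒢.one_mem ∅
    apply hm
    have : g' = 1 := by
      ext x
      exact isEmptyElim x
    rw [← this]
    exact hg'
  obtain ⟨en, hen⟩ := exists_surjective_nat Ω
  let St : ℕ → Type := fun n => {s : ((Fin n → Bool) → (Ω ≃o Ω)) × Finset Ω // ∀ t, s.1 t ∈ 𝒢}
  have step : ∀ (n : ℕ) (s : St n), ∃ s' : St (n + 1), s.1.2 ⊆ s'.1.2 ∧ en n ∈ s'.1.2 ∧
      (∀ t : Fin (n + 1) → Bool, Agree (s.1.1 (fun i => t i.castSucc)) (s'.1.1 t) s.1.2) ∧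
      ∀ t t' : Fin (n + 1) → Bool, t ≠ t' → ∀ m ≤ n, ∀ a ∈ 𝒢, ∀ b ∈ 𝒢,
        Agree (s'.1.1 t) a s'.1.2 → Agree (s'.1.1 t') b s'.1.2 → a⁻¹ * b ∈ U m := by
    intro n s
    let tasks : Finset ((Fin (n + 1) → Bool) × (Fin (n + 1) → Bool) × ℕ) :=
      (Finset.univ ×ˢ Finset.univ ×ˢ Finset.range (n + 1)).filter (fun τ => τ.1 ≠ τ.2.1)
    obtain ⟨g', hg', hag, Y', hY', htasks⟩ := tasks_step 𝒢 U hU tasks
      (fun τ hτ => (Finset.mem_filter.1 hτ).2)
      (fun t : Fin (n + 1) → Bool => s.1.1 (fun i => t i.castSucc)) (fun t => s.2 _) s.1.2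
    refine ⟨⟨(g', insert (en n) Y'), hg'⟩, ?_, ?_, ?_, ?_⟩
    · exact hY'.trans (Finset.subset_insert _ _)
    · exact Finset.mem_insert_self _ _
    · exact hag
    · intro t t' htt m hm a ha b hb haa hbb
      apply htasks (t, t', m) _ a ha b hb (haa.mono (Finset.subset_insert _ _))
        (hbb.mono (Finset.subset_insert _ _))
      simp only [tasks, Finset.mem_filter, Finset.mem_product, Finset.mem_univ, true_and,
        Finset.mem_range]
      exact ⟨by omega, htt⟩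
  choose next hnext using step
  let s0 : St 0 := ⟨(fun _ => 1, ∅), fun _ => 𝒢.one_mem⟩
  let seq : (n : ℕ) → St n := fun n => Nat.rec s0 (fun n s => next n s) n
  have hseq : ∀ n, seq (n + 1) = next n (seq n) := fun n => rfl
  let Y : ℕ → Finset Ω := fun n => (seq n).1.2
  have hYs : ∀ n, Y n ⊆ Y (n + 1) := fun n => (hnext n (seq n)).1
  have hYm : Monotone Y := monotone_nat_of_le_succ hYs
  have hcov : ∀ x, ∃ n, x ∈ Y n := by
    intro x
    obtain ⟨n, rfl⟩ := hen x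
    exact ⟨n + 1, (hnext n (seq n)).2.1⟩
  let a : (ℕ → Bool) → ℕ → (Ω ≃o Ω) := fun α n => (seq n).1.1 (fun i => α i)
  have hlim : ∀ α : ℕ → Bool, ∃ g : Ω ≃o Ω, ∀ n, Agree (a α n) g (Y n) := by
    intro α
    apply exists_limit (a α) Y hYm hcov
    intro n
    exact (hnext n (seq n)).2.2.1 (fun i => α i)
  choose lim hlim using hlim
  have hlimG : ∀ α, lim α ∈ 𝒢 := by
    intro α
    apply h𝒢
    intro x
    obtain ⟨n, hn⟩ := hcov x
    exact ⟨a α n, (seq n).2 _, (hlim α n).1 x hn⟩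
  have hpair : ∀ α β : ℕ → Bool, α ≠ β → ∀ m, (lim α)⁻¹ * lim β ∈ U m := by
    intro α β hαβ m
    obtain ⟨j, hj⟩ := Function.ne_iff.1 hαβ
    let n := max m j
    have hne' : (fun i : Fin (n + 1) => α i) ≠ (fun i : Fin (n + 1) => β i) := by
      intro h
      have := congrFun h ⟨j, by omega⟩
      exact hj this
    exact (hnext n (seq n)).2.2.2 _ _ hne' m (le_max_left _ _) _ (hlimG α) _ (hlimG β)
      (hlim α (n + 1)) (hlim β (n + 1))
  have hinj : Function.Injective (fun α : ℕ → Bool => (QuotientGroup.mk (lim α) : (Ω ≃o Ω) ⧸ H)) := by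
    intro α β hαβ
    by_contra hne'
    have h1 : (lim α)⁻¹ * lim β ∈ H := QuotientGroup.eq.1 hαβ
    obtain ⟨m, hm⟩ := hcon _ h1 (𝒢.mul_mem (𝒢.inv_mem (hlimG α)) (hlimG β))
    exact hm (hpair α β hne' m)
  have h2 := Cardinal.mk_le_of_injective hinj
  rw [← Cardinal.power_def] at h2
  simp only [Cardinal.mk_bool, Cardinal.mk_nat] at h2
  rw [Cardinal.two_power_aleph0] at h2
  exact absurd hH (not_lt.2 h2)

theorem OD_univ (𝒢 : Subgroup (Ω ≃o Ω)) : OD 𝒢 Set.univ :=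
  ⟨fun _ _ _ => ⟨∅, fun _ _ _ => Set.mem_univ _⟩, fun g hg _ => ⟨g, hg, Agree.refl _ _, Set.mem_univ _⟩⟩

theorem small_index_meets [Countable Ω] (H 𝒢 : Subgroup (Ω ≃o Ω))
    (hH : Cardinal.mk ((Ω ≃o Ω) ⧸ H) < Cardinal.continuum)
    (h𝒢 : ∀ g : Ω ≃o Ω, (∀ x, ∃ g' ∈ 𝒢, g' x = g x) → g ∈ 𝒢)
    {I : Type} [Countable I] (U : I → Set (Ω ≃o Ω)) (hU : ∀ m, OD 𝒢 (U m)) :
    ∃ g ∈ H, g ∈ 𝒢 ∧ ∀ m, g ∈ U m := by
  rcases isEmpty_or_nonempty I with hemp | hne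
  · exact ⟨1, H.one_mem, 𝒢.one_mem, fun m => isEmptyElim m⟩
  · obtain ⟨en, hen⟩ := exists_surjective_nat I
    obtain ⟨g, h1, h2, h3⟩ := small_index_meets_nat H 𝒢 hH h𝒢 (fun n => U (en n)) (fun n => hU _)
    refine ⟨g, h1, h2, fun m => ?_⟩
    obtain ⟨n, rfl⟩ := hen m
    exact h3 n

theorem OD_translate {𝒢 : Subgroup (Ω ≃o Ω)} {U : Set (Ω ≃o Ω)} (h : OD 𝒢 U)
    {u : Ω ≃o Ω} (hu : u ∈ 𝒢) : OD 𝒢 {g | u⁻¹ * g ∈ U} := by
  classical
  refine ⟨?_, ?_⟩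
  · intro g hg hgU
    obtain ⟨Y, hY⟩ := h.op (u⁻¹ * g) (𝒢.mul_mem (𝒢.inv_mem hu) hg) hgU
    refine ⟨Y ∪ Y.image (⇑u), ?_⟩
    intro g' hg' hag
    apply hY _ (𝒢.mul_mem (𝒢.inv_mem hu) hg')
    refine ⟨?_, ?_⟩
    · intro y hy
      rw [RelIso.mul_apply, RelIso.mul_apply, hag.1 y (Finset.mem_union_left _ hy)]
    · intro y hy
      rw [mul_inv_rev, mul_inv_rev, inv_inv, RelIso.mul_apply, RelIso.mul_apply,
        hag.2 (u y) (Finset.mem_union_right _ (Finset.mem_image_of_mem _ hy))]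
  · intro g hg Y
    obtain ⟨w, hw, hag, hwU⟩ := h.de (u⁻¹ * g) (𝒢.mul_mem (𝒢.inv_mem hu) hg)
      (Y ∪ Y.image (⇑u⁻¹))
    refine ⟨u * w, 𝒢.mul_mem hu hw, ⟨?_, ?_⟩, ?_⟩
    · intro y hy
      have := hag.1 y (Finset.mem_union_left _ hy)
      rw [RelIso.mul_apply, ← this, RelIso.mul_apply, RelIso.apply_inv_self]
    · intro y hy
      have := hag.2 (u⁻¹ y) (Finset.mem_union_right _ (Finset.mem_image_of_mem _ hy))
      rw [mul_inv_rev, inv_inv, RelIso.mul_apply, RelIso.apply_inv_self] at this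
      rw [this, mul_inv_rev, RelIso.mul_apply]
    · show u⁻¹ * (u * w) ∈ U
      rw [inv_mul_cancel_left]
      exact hwU

/-- A subgroup containing a countable intersection of open dense subsets of `𝒢`
contains `𝒢`. -/
theorem comeagre_subgroup [Countable Ω] (H 𝒢 : Subgroup (Ω ≃o Ω))
    (h𝒢 : ∀ g : Ω ≃o Ω, (∀ x, ∃ g' ∈ 𝒢, g' x = g x) → g ∈ 𝒢)
    {I : Type} [Countable I] (U : I → Set (Ω ≃o Ω)) (hU : ∀ m, OD 𝒢 (U m))
    (h : ∀ g ∈ 𝒢, (∀ m, g ∈ U m) → g ∈ H) : 𝒢 ≤ H := by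
  intro u hu
  have hT : Cardinal.mk ((Ω ≃o Ω) ⧸ (⊤ : Subgroup (Ω ≃o Ω))) < Cardinal.continuum := by
    have h1 : Cardinal.mk ((Ω ≃o Ω) ⧸ (⊤ : Subgroup (Ω ≃o Ω))) ≤ 1 := by
      rw [Cardinal.le_one_iff_subsingleton]
      exact QuotientGroup.subsingleton_quotient_top
    exact lt_of_le_of_lt h1 (lt_trans Cardinal.one_lt_aleph0 Cardinal.aleph0_lt_continuum)
  obtain ⟨g, _, hg, hgU⟩ := small_index_meets ⊤ 𝒢 hT h𝒢
    (fun i : I ⊕ I => Sum.elim U (fun m => {g | u⁻¹ * g ∈ U m}) i)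
    (by
      intro i
      rcases i with i | i
      · exact hU i
      · exact OD_translate (hU i) hu)
  have h1 : g ∈ H := h g hg (fun m => hgU (Sum.inl m))
  have h2 : u⁻¹ * g ∈ H := h _ (𝒢.mul_mem (𝒢.inv_mem hu) hg) (fun m => hgU (Sum.inr m))
  have h3 : g * (u⁻¹ * g)⁻¹ ∈ H := H.mul_mem h1 (H.inv_mem h2)
  have h4 : g * (u⁻¹ * g)⁻¹ = u := by group
  rwa [h4] at h3

end Pool.Agent.Helper798.UPoset
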