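import Mathlib
import Pool.Agent.Helper798.UPoset.Amalg
import Pool.Agent.Helper798.UPoset.BackForth

set_option autoImplicit false

namespace Pool.Agent.Helper798.UPoset

/-- Wrapper for back and forth. -/
theorem backforth' {Λ Ω : Type} [PartialOrder Ω] [Countable Ω] {L : Λ → Λ → Prop} {k : ℕ}
    {r : Ω → Λ} {c : ℕ → (Ω ≃o Ω)} {r' : Ω → Λ} {c' : ℕ → (Ω ≃o Ω)}
    (hg : Gen L k r c) (hg' : Gen L k r' c')
    (A : Finset Ω) (φ : Ω → Ω) (hA : ∀ i < k, ∀ a ∈ A, c i a ∈ A)
    (hle : ∀ x ∈ A, ∀ y ∈ A, (φ x ≤ φ y ↔ x ≤ y)) (hlev : ∀ x ∈ A, r' (φ x) = r x)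
    (heqv : ∀ i < k, ∀ x ∈ A, φ (c i x) = c' i (φ x)) :
    ∃ f : Ω ≃o Ω, (∀ x ∈ A, f x = φ x) ∧ (∀ x, r' (f x) = r x) ∧
      ∀ i < k, ∀ x, f (c i x) = c' i (f x) := by
  classical
  have h : PI k r c r' c' (A.image (fun a => (a, φ a))) := by
    refine ⟨?_, ?_, ?_⟩
    · intro p hp q hq
      rw [Finset.mem_image] at hp hq
      obtain ⟨x, hx, rfl⟩ := hp
      obtain ⟨y, hy, rfl⟩ := hq
      exact hle x hx y hy
    · intro p hp
      rw [Finset.mem_image] at hp
      obtain ⟨x, hx, rfl⟩ := hp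
      exact hlev x hx
    · intro i hi p hp
      rw [Finset.mem_image] at hp ⊢
      obtain ⟨x, hx, rfl⟩ := hp
      exact ⟨c i x, hA i hi x hx, by rw [heqv i hi x hx]⟩
  obtain ⟨f, h1, h2, h3⟩ := backforth hg hg' h
  exact ⟨f, fun x hx => h1 (x, φ x) (Finset.mem_image_of_mem _ hx), h2, h3⟩

theorem gen_unit {Ω : Type} [PartialOrder Ω]
    (huniv : ∀ (α : Type) [Finite α] [PartialOrder α], Nonempty (α ↪o Ω))
    (hhom : ∀ (A B : Set Ω), A.Finite → ∀ f : A ≃o B, ∃ g : Ω ≃o Ω, ∀ a : A, g a.1 = (f a).1)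
    (c : ℕ → (Ω ≃o Ω)) :
    Gen (fun _ _ : Unit => True) 0 (fun _ : Ω => ()) c where
  mono _ _ _ := trivial
  lev i hi := absurd hi (Nat.not_lt_zero i)
  fin Y := ⟨Y, subset_rfl, fun i hi => absurd hi (Nat.not_lt_zero i)⟩
  ext := by
    intro A B _ _ _ _ rA sA rB sB hV ι hι j hj
    obtain ⟨e0⟩ := huniv B
    let f1 : A ↪o Ω := OrderEmbedding.ofMapLEIff (fun a => e0 (ι a)) (fun a b => by
      rw [e0.le_iff_le, hι.le])
    let f2 : A ↪o Ω := OrderEmbedding.ofMapLEIff j (fun a b => hj.le a b)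
    obtain ⟨g, hg⟩ := hhom (Set.range f1) (Set.range f2) (Set.finite_range _)
      (f1.orderIso.symm.trans f2.orderIso)
    refine ⟨fun b => g (e0 b), ⟨?_, ?_, ?_⟩, ?_⟩
    · intro x y
      rw [g.le_iff_le, e0.le_iff_le]
    · intro x; rfl
    · intro i hi; exact absurd hi (Nat.not_lt_zero i)
    · intro a
      have h1 := hg (f1.orderIso a)
      rw [OrderIso.trans_apply, OrderIso.symm_apply_apply] at h1
      exact h1

/-- Two finite pieces over a common part: embedding of the amalgam into a generic structure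
over the first piece. -/
theorem embed_amalg {Λ Λ' Ω : Type} [PartialOrder Ω] {L : Λ → Λ → Prop} {L' : Λ' → Λ' → Prop}
    (hL : ∀ a b c, L a b → L b c → L a c) {k m : ℕ} (hmk : m ≤ k)
    (F : Λ → Λ') (hF : ∀ a b, L a b → L' (F a) (F b))
    {r : Ω → Λ'} {c : ℕ → (Ω ≃o Ω)} (hg : Gen L' m r c)
    {A B Z : Type} [Finite A] [Finite B] [Finite Z] [PartialOrder A] [PartialOrder B]
    [PartialOrder Z]
    {rA : A → Λ} {sA : ℕ → A → A} {rB : B → Λ} {sB : ℕ → B → B} {rZ : Z → Λ} {sZ : ℕ → Z → Z}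
    (hB : Valid L k rB sB) (hZ : Valid L k rZ sZ)
    {ι : A → B} {j : A → Z} (hι : IsEmb k rA sA rB sB ι) (hj : IsEmb k rA sA rZ sZ j)
    (z : Z → Ω) (hz : IsEmb m (fun x => F (rZ x)) sZ r (fun i => ⇑(c i)) z) :
    ∃ (C : Type) (_ : Finite C) (_ : PartialOrder C) (rC : C → Λ) (sC : ℕ → C → C)
      (iZ : Z → C) (iB : B → C) (e : C → Ω),
      Valid L k rC sC ∧ IsEmb k rZ sZ rC sC iZ ∧ IsEmb k rB sB rC sC iB ∧
      (∀ a, iB (ι a) = iZ (j a)) ∧
      (∀ z b, iZ z ≤ iB b → ∃ a, z ≤ j a ∧ ι a ≤ b) ∧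
      (∀ z b, iB b ≤ iZ z → ∃ a, b ≤ ι a ∧ j a ≤ z) ∧
      IsEmb m (fun x => F (rC x)) sC r (fun i => ⇑(c i)) e ∧ ∀ x, e (iZ x) = z x := by
  obtain ⟨C, hC1, hC2, rC, sC, iZ, iB, h1, h2, h3, h4, h5, h6⟩ :=
    amalg L hL k hB hZ hι hj
  have hV : Valid L' m (fun x => F (rC x)) sC := by
    refine ⟨?_, ?_, ?_⟩
    · intro x y hxy; exact hF _ _ (h1.mono x y hxy)
    · intro i hi; exact h1.le i (lt_of_lt_of_le hi hmk)
    · intro i hi x; exact congrArg F (h1.lev i (lt_of_lt_of_le hi hmk) x)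
  have hiZ : IsEmb m (fun x => F (rZ x)) sZ (fun x => F (rC x)) sC iZ := by
    refine ⟨h2.le, ?_, ?_⟩
    · intro x; exact congrArg F (h2.lev x)
    · intro i hi x; exact h2.eqv i (lt_of_lt_of_le hi hmk) x
  obtain ⟨e, he, hez⟩ := hg.ext Z C (fun x => F (rZ x)) sZ (fun x => F (rC x)) sC hV iZ hiZ z hz
  exact ⟨C, hC1, hC2, rC, sC, iZ, iB, e, h1, h2, h3, h4, h5, h6, he, hez⟩

section rho

variable {Ω : Type} [PartialOrder Ω]

/-- Finite pieces of level functions. -/
structure PL (Ω : Type) [PartialOrder Ω] where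
  Z : Finset Ω
  v : Ω → ℚ
  mono : ∀ x ∈ Z, ∀ y ∈ Z, x < y → v x < v y

instance : Preorder (PL Ω) where
  le p q := p.Z ⊆ q.Z ∧ ∀ x ∈ p.Z, p.v x = q.v x
  le_refl p := ⟨subset_rfl, fun _ _ => rfl⟩
  le_trans p q s h1 h2 := ⟨h1.1.trans h2.1, fun x hx => (h1.2 x hx).trans (h2.2 x (h1.1 hx))⟩

theorem PL.le_def (p q : PL Ω) : p ≤ q ↔ p.Z ⊆ q.Z ∧ ∀ x ∈ p.Z, p.v x = q.v x := Iff.rfl

theorem PL.extend_pt (p : PL Ω) (x : Ω) : ∃ q : PL Ω, p ≤ q ∧ x ∈ q.Z := by
  classical
  by_cases hx : x ∈ p.Z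
  · exact ⟨p, le_rfl, hx⟩
  · obtain ⟨m, hm1, hm2⟩ := Order.exists_between_finsets
      (lo := (p.Z.filter (fun y => y < x)).image p.v)
      (hi := (p.Z.filter (fun y => x < y)).image p.v) (by
        intro a ha b hb
        rw [Finset.mem_image] at ha hb
        obtain ⟨y, hy, rfl⟩ := ha
        obtain ⟨z, hz, rfl⟩ := hb
        rw [Finset.mem_filter] at hy hz
        exact p.mono y hy.1 z hz.1 (hy.2.trans hz.2))
    refine ⟨⟨insert x p.Z, Function.update p.v x m, ?_⟩, ⟨Finset.subset_insert _ _, ?_⟩,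
      Finset.mem_insert_self _ _⟩
    · intro a ha b hb hab
      rw [Finset.mem_insert] at ha hb
      rcases ha with ha | ha
      · subst ha
        rcases hb with hb | hb
        · subst hb; exact absurd hab (lt_irrefl _)
        · have hne : b ≠ a := hab.ne'
          rw [Function.update_self, Function.update_of_ne hne]
          exact hm2 _ (Finset.mem_image_of_mem _ (Finset.mem_filter.2 ⟨hb, hab⟩))
      · rcases hb with hb | hb
        · subst hb
          have hne : a ≠ b := hab.ne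
          rw [Function.update_self, Function.update_of_ne hne]
          exact hm1 _ (Finset.mem_image_of_mem _ (Finset.mem_filter.2 ⟨ha, hab⟩))
        · have h1 : a ≠ x := fun h => hx (h ▸ ha)
          have h2 : b ≠ x := fun h => hx (h ▸ hb)
          rw [Function.update_of_ne h1, Function.update_of_ne h2]
          exact p.mono a ha b hb hab
    · intro y hy
      have h1 : y ≠ x := fun h => hx (h ▸ hy)
      exact (Function.update_of_ne h1 _ _).symm

theorem PL.extend_set (p : PL Ω) (A : Finset Ω) : ∃ q : PL Ω, p ≤ q ∧ A ⊆ q.Z := by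
  classical
  induction A using Finset.induction_on with
  | empty => exact ⟨p, le_rfl, Finset.empty_subset _⟩
  | insert a s ha ih =>
    obtain ⟨q, hq1, hq2⟩ := ih
    obtain ⟨q', hq3, hq4⟩ := q.extend_pt a
    refine ⟨q', hq1.trans hq3, ?_⟩
    intro y hy
    rw [Finset.mem_insert] at hy
    rcases hy with hy | hy
    · rw [hy]; exact hq4
    · exact hq3.1 (hq2 hy)

/-- A generic level function exists. -/
theorem exists_rho [Countable Ω]
    (hg : Gen (fun _ _ : Unit => True) 0 (fun _ : Ω => ()) (fun _ => 1)) :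
    ∃ ρ : Ω → ℚ, Gen (fun a b : ℚ => a < b) 0 ρ (fun _ => 1) := by
  classical
  let J := Σ _ : Finset Ω, Σ B : Finset Ω, (↥B → ℚ)
  let D : Ω ⊕ J → Set (PL Ω) := fun i => match i with
    | Sum.inl x => {p | x ∈ p.Z}
    | Sum.inr ⟨A', B, β⟩ => {p | (A' ⊆ B ∧ ∀ x y : ↥B, x < y → β x < β y) →
        ((∃ a : ↥B, a.1 ∈ A' ∧ a.1 ∈ p.Z ∧ p.v a.1 ≠ β a) ∨
        ∃ e : ↥B → Ω, (∀ x y, e x ≤ e y ↔ x ≤ y) ∧ (∀ x : ↥B, x.1 ∈ A' → e x = x.1) ∧
          ∀ x, e x ∈ p.Z ∧ p.v (e x) = β x)}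
  have hD : ∀ i, ∀ q : PL Ω, ∃ q' ∈ D i, q ≤ q' := by
    rintro (x | ⟨A', B, β⟩) q
    · obtain ⟨q', h1, h2⟩ := q.extend_pt x
      exact ⟨q', h2, h1⟩
    · obtain ⟨p, hp1, hp2⟩ := q.extend_set A'
      by_cases hval : (A' ⊆ B ∧ ∀ x y : ↥B, x < y → β x < β y)
      · by_cases hdis : ∃ a : ↥B, a.1 ∈ A' ∧ a.1 ∈ p.Z ∧ p.v a.1 ≠ β a
        · exact ⟨p, fun _ => Or.inl hdis, hp1⟩
        · push Not at hdis
          obtain ⟨hAB, hβ⟩ := hval
          -- amalgamate
          let ι : ↥A' → ↥B := fun a => ⟨a.1, hAB a.2⟩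
          let j : ↥A' → ↥p.Z := fun a => ⟨a.1, hp2 a.2⟩
          have hB : Valid (fun a b : ℚ => a < b) 0 β (fun _ => id) :=
            ⟨hβ, fun i hi => absurd hi (Nat.not_lt_zero i), fun i hi => absurd hi (Nat.not_lt_zero i)⟩
          have hZ : Valid (fun a b : ℚ => a < b) 0 (fun z : ↥p.Z => p.v z.1) (fun _ => id) :=
            ⟨fun x y hxy => p.mono x.1 x.2 y.1 y.2 hxy, fun i hi => absurd hi (Nat.not_lt_zero i),
              fun i hi => absurd hi (Nat.not_lt_zero i)⟩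
          have hι : IsEmb 0 (fun a : ↥A' => p.v a.1) (fun _ => id) β (fun _ => id) ι :=
            ⟨fun x y => Iff.rfl, fun x => (hdis (ι x) x.2 (hp2 x.2)).symm,
              fun i hi => absurd hi (Nat.not_lt_zero i)⟩
          have hj : IsEmb 0 (fun a : ↥A' => p.v a.1) (fun _ => id)
              (fun z : ↥p.Z => p.v z.1) (fun _ => id) j :=
            ⟨fun x y => Iff.rfl, fun x => rfl, fun i hi => absurd hi (Nat.not_lt_zero i)⟩
          obtain ⟨C, hC1, hC2, rC, sC, iZ, iB, e, h1, h2, h3, h4, h5, h6, he, hez⟩ :=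
            embed_amalg (L := fun a b : ℚ => a < b) (fun a b c => lt_trans) (le_refl 0)
              (fun _ : ℚ => ()) (fun _ _ _ => trivial) hg hB hZ hι hj (fun z : ↥p.Z => z.1)
              ⟨fun x y => Iff.rfl, fun x => rfl, fun i hi => absurd hi (Nat.not_lt_zero i)⟩
          let _ := Fintype.ofFinite C
          let v' : Ω → ℚ := fun w => if h : ∃ c, e c = w then rC h.choose else 0
          have hv' : ∀ c, v' (e c) = rC c := by
            intro c
            have h : ∃ c', e c' = e c := ⟨c, rfl⟩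
            simp only [v', dif_pos h]
            exact congrArg rC (he.inj h.choose_spec)
          refine ⟨⟨Finset.univ.image e, v', ?_⟩, ?_, ?_⟩
          · intro x hx y hy hxy
            rw [Finset.mem_image] at hx hy
            obtain ⟨a, _, rfl⟩ := hx
            obtain ⟨b, _, rfl⟩ := hy
            rw [hv', hv']
            exact h1.mono a b ((he.lt a b).1 hxy)
          · intro _
            right
            refine ⟨fun b => e (iB b), ?_, ?_, ?_⟩
            · intro x y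
              rw [he.le, h3.le]
            · intro x hx
              have e1 := h4 ⟨x.1, hx⟩
              have e2 : ι ⟨x.1, hx⟩ = x := rfl
              rw [e2] at e1
              show e (iB x) = x.1
              rw [e1, hez]
            · intro x
              refine ⟨Finset.mem_image_of_mem _ (Finset.mem_univ _), ?_⟩
              show v' (e (iB x)) = β x
              rw [hv', h3.lev]
          · refine hp1.trans ⟨?_, ?_⟩
            · intro z hz
              rw [Finset.mem_image]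
              exact ⟨iZ ⟨z, hz⟩, Finset.mem_univ _, hez _⟩
            · intro z hz
              have e1 := hez ⟨z, hz⟩
              show p.v z = v' z
              have e2 : v' z = v' (e (iZ ⟨z, hz⟩)) := by rw [e1]
              rw [e2, hv', h2.lev]
      · exact ⟨p, fun h => absurd h hval, hp1⟩
  obtain ⟨s, hs, hs0, hsD⟩ := rs (⟨∅, fun _ => 0, fun x hx => absurd hx (Finset.notMem_empty x)⟩ : PL Ω) D hD
  have hcov : ∀ x, ∃ n, x ∈ (s n).Z := fun x => hsD (Sum.inl x)
  choose N hN using hcov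
  let ρ : Ω → ℚ := fun x => (s (N x)).v x
  have hρ : ∀ n x, x ∈ (s n).Z → ρ x = (s n).v x := by
    intro n x hx
    rcases le_total n (N x) with h | h
    · exact ((hs h).2 x hx).symm
    · exact (hs h).2 x (hN x)
  refine ⟨ρ, ⟨?_, ?_, ?_, ?_⟩⟩
  · intro x y hxy
    have h1 : x ∈ (s (max (N x) (N y))).Z := (hs (le_max_left _ _)).1 (hN x)
    have h2 : y ∈ (s (max (N x) (N y))).Z := (hs (le_max_right _ _)).1 (hN y)
    show ρ x < ρ y
    rw [hρ _ x h1, hρ _ y h2]
    exact (s (max (N x) (N y))).mono x h1 y h2 hxy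
  · intro i hi; exact absurd hi (Nat.not_lt_zero i)
  · intro Y; exact ⟨Y, subset_rfl, fun i hi => absurd hi (Nat.not_lt_zero i)⟩
  · intro A B _ _ _ _ rA sA rB sB hV ι hι j hj
    let _ := Fintype.ofFinite A
    let _ := Fintype.ofFinite B
    obtain ⟨e1, he1, hej⟩ := hg.ext A B (fun _ => ()) sA (fun _ => ()) sB
      ⟨fun _ _ _ => trivial, fun i hi => absurd hi (Nat.not_lt_zero i),
        fun i hi => absurd hi (Nat.not_lt_zero i)⟩ ι
      ⟨hι.le, fun _ => rfl, fun i hi => absurd hi (Nat.not_lt_zero i)⟩ j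
      ⟨hj.le, fun _ => rfl, fun i hi => absurd hi (Nat.not_lt_zero i)⟩
    let Bf : Finset Ω := Finset.univ.image e1
    let Af : Finset Ω := Finset.univ.image j
    have hinv : ∀ b : ↥Bf, ∃ b', e1 b' = b.1 := by
      intro b
      have := b.2
      rw [Finset.mem_image] at this
      obtain ⟨b', _, h⟩ := this
      exact ⟨b', h⟩
    choose inv hinv using hinv
    have hinve : ∀ b, ∀ h : e1 b ∈ Bf, inv ⟨e1 b, h⟩ = b := fun b h => he1.inj (hinv _)
    obtain ⟨n, hn⟩ := hsD (Sum.inr ⟨Af, Bf, fun b => rB (inv b)⟩)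
    have hval : (Af ⊆ Bf ∧ ∀ x y : ↥Bf, x < y → rB (inv x) < rB (inv y)) := by
      refine ⟨?_, ?_⟩
      · intro x hx
        rw [Finset.mem_image] at hx ⊢
        obtain ⟨a, _, rfl⟩ := hx
        exact ⟨ι a, Finset.mem_univ _, hej a⟩
      · intro x y hxy
        apply hV.mono
        rw [← he1.lt, hinv, hinv]
        exact hxy
    rcases hn hval with ⟨a, ha1, ha2, ha3⟩ | ⟨e, he, heA, heZ⟩
    · exfalso
      apply ha3
      rw [← hρ n _ ha2]
      rw [Finset.mem_image] at ha1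
      obtain ⟨a', _, ha'⟩ := ha1
      rw [← ha', hj.lev, ← hι.lev]
      congr 1
      apply he1.inj
      rw [hej, ha', hinv]
    · have hmem : ∀ b, e1 b ∈ Bf := fun b => Finset.mem_image_of_mem _ (Finset.mem_univ _)
      refine ⟨fun b => e ⟨e1 b, hmem b⟩, ⟨?_, ?_, ?_⟩, ?_⟩
      · intro x y
        rw [he, ← he1.le x y]
        exact Iff.rfl
      · intro x
        show ρ (e ⟨e1 x, hmem x⟩) = rB x
        rw [hρ n _ (heZ _).1, (heZ _).2]
        show rB (inv _) = rB x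
        rw [hinve]
      · intro i hi; exact absurd hi (Nat.not_lt_zero i)
      · intro a
        have h1 : e1 (ι a) ∈ Af := by
          rw [hej]; exact Finset.mem_image_of_mem _ (Finset.mem_univ _)
        show e ⟨e1 (ι a), hmem (ι a)⟩ = j a
        rw [heA ⟨e1 (ι a), hmem (ι a)⟩ h1]
        exact hej a

end rho

end Pool.Agent.Helper798.UPoset
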