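import Mathlib
import Pool.Agent.Helper798.UPoset.Amalg
import Pool.Agent.Helper798.UPoset.EPPA
import Pool.Agent.Helper798.UPoset.BackForth
import Pool.Agent.Helper798.UPoset.Fusion
import Pool.Agent.Helper798.UPoset.Level

set_option autoImplicit false

namespace Pool.Agent.Helper798.UPoset

variable {Ω : Type} [PartialOrder Ω]

/-- Automorphisms preserving `r` and fixing the points of `A`. -/
def KS {Λ : Type} (r : Ω → Λ) (A : Finset Ω) : Subgroup (Ω ≃o Ω) where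
  carrier := {g | (∀ x, r (g x) = r x) ∧ ∀ a ∈ A, g a = a}
  mul_mem' := by
    intro g h hg hh
    refine ⟨fun x => ?_, fun a ha => ?_⟩
    · rw [RelIso.mul_apply, hg.1, hh.1]
    · rw [RelIso.mul_apply, hh.2 a ha, hg.2 a ha]
  one_mem' := ⟨fun _ => rfl, fun _ _ => rfl⟩
  inv_mem' := by
    intro g hg
    refine ⟨fun x => ?_, fun a ha => ?_⟩
    · have := hg.1 (g⁻¹ x)
      rw [RelIso.apply_inv_self] at this
      exact this.symm
    · have := hg.2 a ha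
      have h2 : g⁻¹ (g a) = a := RelIso.inv_apply_self g a
      rw [this] at h2
      exact h2

theorem mem_KS {Λ : Type} {r : Ω → Λ} {A : Finset Ω} {g : Ω ≃o Ω} :
    g ∈ KS r A ↔ (∀ x, r (g x) = r x) ∧ ∀ a ∈ A, g a = a := Iff.rfl

theorem KS_closed {Λ : Type} (r : Ω → Λ) (A : Finset Ω) (g : Ω ≃o Ω)
    (h : ∀ x, ∃ g' ∈ KS r A, g' x = g x) : g ∈ KS r A := by
  refine ⟨fun x => ?_, fun a ha => ?_⟩
  · obtain ⟨g', h1, h2⟩ := h x
    rw [← h2]; exact h1.1 x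
  · obtain ⟨g', h1, h2⟩ := h a
    rw [← h2]; exact h1.2 a ha

theorem hom_emb [Countable Ω] {Λ : Type} {L : Λ → Λ → Prop} {r r' : Ω → Λ}
    {c c' : ℕ → (Ω ≃o Ω)} (h : Gen L 0 r c) (h' : Gen L 0 r' c')
    {E : Type} [Finite E] [PartialOrder E] (e e' : E → Ω)
    (he : ∀ x y, e x ≤ e y ↔ x ≤ y) (he' : ∀ x y, e' x ≤ e' y ↔ x ≤ y)
    (hlev : ∀ x, r' (e' x) = r (e x)) :
    ∃ g : Ω ≃o Ω, (∀ x, g (e x) = e' x) ∧ ∀ x, r' (g x) = r x := by
  classical
  let _ := Fintype.ofFinite E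
  have hPI : PI 0 r c r' c' (Finset.univ.image (fun x => (e x, e' x))) := by
    refine ⟨?_, ?_, ?_⟩
    · intro p hp q hq
      rw [Finset.mem_image] at hp hq
      obtain ⟨x, _, rfl⟩ := hp
      obtain ⟨y, _, rfl⟩ := hq
      show e' x ≤ e' y ↔ e x ≤ e y
      rw [he, he']
    · intro p hp
      rw [Finset.mem_image] at hp
      obtain ⟨x, _, rfl⟩ := hp
      exact hlev x
    · intro i hi; exact absurd hi (Nat.not_lt_zero i)
  obtain ⟨f, h1, h2, _⟩ := backforth h h' hPI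
  exact ⟨f, fun x => h1 (e x, e' x) (Finset.mem_image_of_mem _ (Finset.mem_univ _)), h2⟩

/-- Restriction of a map to a finite set. -/
noncomputable def res (B : Finset Ω) (f : Ω → Ω) : ↥B → ↥B :=
  open Classical in fun b => if h : f b ∈ B then ⟨f b, h⟩ else b

theorem res_val {B : Finset Ω} {f : Ω → Ω} (hB : ∀ b ∈ B, f b ∈ B) (b : ↥B) :
    (res B f b).1 = f b := by
  have h : f b.1 ∈ B := hB b.1 b.2
  simp only [res, dif_pos h]

/-- The order on levels. -/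
abbrev LQ : ℚ → ℚ → Prop := fun a b => a < b

theorem fin_ext [Countable Ω] {k : ℕ} {ρ : Ω → ℚ} {c : ℕ → (Ω ≃o Ω)} (hk : Gen LQ k ρ c)
    (h0 : Gen LQ 0 ρ (fun _ => 1)) (g0 : Ω ≃o Ω) (hg0 : ∀ x, ρ (g0 x) = ρ x) (Y : Finset Ω) :
    ∃ g1 : Ω ≃o Ω, (∀ x, ρ (g1 x) = ρ x) ∧ Agree g0 g1 Y ∧
      ∃ Z : Finset Ω, Y ⊆ Z ∧ (∀ i < k, ∀ z ∈ Z, c i z ∈ Z) ∧ ∀ z ∈ Z, g1 z ∈ Z := by
  classical
  let D0 : Finset Ω := Y ∪ Y.image (⇑g0⁻¹)
  obtain ⟨Z0, hZ1, hZ2⟩ := hk.fin (D0 ∪ D0.image (⇑g0))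
  obtain ⟨E, hE1, hE2, ρE, ι, hmono, hle, hlev, hext⟩ :=
    eppa (fun z : ↥Z0 => ρ z.1) (fun x y hxy => hk.mono x.1 y.1 hxy)
  have hci : ∀ i : ℕ, ∃ q : E → E, i < k → (∀ x y, q x ≤ q y ↔ x ≤ y) ∧ (∀ x, ρE (q x) = ρE x) ∧
      ∀ x, q (ι x) = ι (res Z0 (c i) x) := by
    intro i
    by_cases hi : i < k
    · obtain ⟨q, h1, h2, h3⟩ := hext Set.univ (res Z0 (c i))
        (by
          intro x _ y _
          rw [← Subtype.coe_le_coe, res_val (hZ2 i hi), res_val (hZ2 i hi), (c i).le_iff_le,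
            Subtype.coe_le_coe])
        (by
          intro x _
          show ρ (res Z0 (c i) x).1 = ρ x.1
          rw [res_val (hZ2 i hi), hk.lev i hi])
      exact ⟨q, fun _ => ⟨h1, h2, fun x => h3 x (Set.mem_univ _)⟩⟩
    · exact ⟨id, fun h => absurd h hi⟩
  choose s hs using hci
  have hp : ∀ x : ↥Z0, x.1 ∈ D0 → g0 x.1 ∈ Z0 := fun x hx =>
    hZ1 (Finset.mem_union_right _ (Finset.mem_image_of_mem _ hx))
  have hpv : ∀ x : ↥Z0, x.1 ∈ D0 → (res Z0 g0 x).1 = g0 x.1 := by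
    intro x hx
    have h := hp x hx
    simp only [res, dif_pos h]
  obtain ⟨q, hq1, hq2, hq3⟩ := hext {x : ↥Z0 | x.1 ∈ D0} (res Z0 g0)
    (by
      intro x hx y hy
      rw [← Subtype.coe_le_coe, hpv x hx, hpv y hy, g0.le_iff_le, Subtype.coe_le_coe])
    (by
      intro x hx
      show ρ (res Z0 g0 x).1 = ρ x.1
      rw [hpv x hx, hg0])
  obtain ⟨e, he, hez⟩ := hk.ext ↥Z0 E (fun z : ↥Z0 => ρ z.1) (fun i => res Z0 (c i)) ρE s
    ⟨hmono, fun i hi => (hs i hi).1, fun i hi => (hs i hi).2.1⟩ ι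
    ⟨hle, hlev, fun i hi x => ((hs i hi).2.2 x).symm⟩ (fun z : ↥Z0 => z.1)
    ⟨fun x y => Iff.rfl, fun x => rfl, fun i hi x => res_val (hZ2 i hi) x⟩
  obtain ⟨g1, hg1, hg1l⟩ := hom_emb h0 h0 e (fun x => e (q x)) he.le
    (fun x y => by rw [he.le, hq1]) (fun x => by rw [he.lev, he.lev, hq2])
  have hZ0sub : ∀ z, ∀ hz : z ∈ Z0, z = e (ι ⟨z, hz⟩) := fun z hz => (hez ⟨z, hz⟩).symm
  have hD0 : ∀ y ∈ D0, g1 y = g0 y := by
    intro y hy
    have hyZ : y ∈ Z0 := hZ1 (Finset.mem_union_left _ hy)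
    have e1 := hg1 (ι ⟨y, hyZ⟩)
    rw [hez] at e1
    have e2 := hq3 ⟨y, hyZ⟩ hy
    rw [e2, hez, hpv ⟨y, hyZ⟩ hy] at e1
    exact e1
  let _ := Fintype.ofFinite E
  refine ⟨g1, hg1l, ⟨?_, ?_⟩, Finset.univ.image e, ?_, ?_, ?_⟩
  · intro y hy
    exact (hD0 y (Finset.mem_union_left _ hy)).symm
  · intro y hy
    have e1 := hD0 (g0⁻¹ y) (Finset.mem_union_right _ (Finset.mem_image_of_mem _ hy))
    rw [RelIso.apply_inv_self] at e1
    have e2 : g1⁻¹ (g1 (g0⁻¹ y)) = g0⁻¹ y := RelIso.inv_apply_self _ _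
    rw [e1] at e2
    exact e2.symm
  · intro y hy
    have hyZ : y ∈ Z0 := hZ1 (Finset.mem_union_left _ (Finset.mem_union_left _ hy))
    rw [Finset.mem_image]
    exact ⟨ι ⟨y, hyZ⟩, Finset.mem_univ _, hez _⟩
  · intro i hi z hz
    rw [Finset.mem_image] at hz ⊢
    obtain ⟨x, _, rfl⟩ := hz
    exact ⟨s i x, Finset.mem_univ _, he.eqv i hi x⟩
  · intro z hz
    rw [Finset.mem_image] at hz ⊢
    obtain ⟨x, _, rfl⟩ := hz
    exact ⟨q x, Finset.mem_univ _, (hg1 x).symm⟩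

/-- First family of open dense sets: finite orbits. -/
def U1 (k : ℕ) (c : ℕ → (Ω ≃o Ω)) (x : Ω) : Set (Ω ≃o Ω) :=
  {g | ∃ Z : Finset Ω, x ∈ Z ∧ (∀ i < k, ∀ z ∈ Z, c i z ∈ Z) ∧ ∀ z ∈ Z, g z ∈ Z}

theorem U1_OD [Countable Ω] {k : ℕ} {ρ : Ω → ℚ} {c : ℕ → (Ω ≃o Ω)} (hk : Gen LQ k ρ c)
    (h0 : Gen LQ 0 ρ (fun _ => 1)) (A : Finset Ω) (x : Ω) : OD (KS ρ A) (U1 k c x) := by
  classical
  refine ⟨?_, ?_⟩
  · rintro g hg ⟨Z, h1, h2, h3⟩
    refine ⟨Z, fun g' hg' hag => ⟨Z, h1, h2, ?_⟩⟩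
    intro z hz
    rw [← hag.1 z hz]
    exact h3 z hz
  · intro g hg Y
    obtain ⟨g1, hg1, hag, Z, hZ1, hZ2, hZ3⟩ := fin_ext hk h0 g hg.1 (Y ∪ A ∪ {x})
    refine ⟨g1, ⟨hg1, ?_⟩, hag.mono ?_, Z, ?_, hZ2, hZ3⟩
    · intro a ha
      rw [← hag.1 a (by simp [ha])]
      exact hg.2 a ha
    · intro y hy
      simp [hy]
    · exact hZ1 (by simp)

/-- Validity of an extension problem. -/
def V2 (k : ℕ) (ρ : Ω → ℚ) (c : ℕ → (Ω ≃o Ω)) (A' B : Finset Ω) (π : ↥B → ↥B) : Prop :=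
  A' ⊆ B ∧ (∀ i < k, ∀ b ∈ B, c i b ∈ B) ∧ (∀ x y : ↥B, π x ≤ π y ↔ x ≤ y) ∧
    (∀ x : ↥B, ρ (π x).1 = ρ x.1) ∧ (∀ i < k, ∀ a ∈ A', c i a ∈ A') ∧
    ∀ x : ↥B, x.1 ∈ A' → (π x).1 ∈ A'

/-- Second family of open dense sets. -/
def U2 (k : ℕ) (ρ : Ω → ℚ) (c : ℕ → (Ω ≃o Ω)) (A' B : Finset Ω) (π : ↥B → ↥B) :
    Set (Ω ≃o Ω) :=
  {g | V2 k ρ c A' B π → (∀ x : ↥B, x.1 ∈ A' → g x.1 = (π x).1) →
    ∃ e : ↥B → Ω, (∀ x y, e x ≤ e y ↔ x ≤ y) ∧ (∀ x, ρ (e x) = ρ x.1) ∧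
      (∀ i < k, ∀ x y : ↥B, y.1 = c i x.1 → e y = c i (e x)) ∧ (∀ x, g (e x) = e (π x)) ∧
      ∀ x : ↥B, x.1 ∈ A' → e x = x.1}

theorem U2_OD [Countable Ω] {k : ℕ} {ρ : Ω → ℚ} {c : ℕ → (Ω ≃o Ω)} (hk : Gen LQ k ρ c)
    (h0 : Gen LQ 0 ρ (fun _ => 1)) (A : Finset Ω) (A' B : Finset Ω) (π : ↥B → ↥B) :
    OD (KS ρ A) (U2 k ρ c A' B π) := by
  classical
  refine ⟨?_, ?_⟩
  · intro g hg hgU
    by_cases hV : V2 k ρ c A' B π
    · by_cases hP : ∀ x : ↥B, x.1 ∈ A' → g x.1 = (π x).1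
      · obtain ⟨e, h1, h2, h3, h4, h5⟩ := hgU hV hP
        refine ⟨Finset.univ.image e, fun g' hg' hag _ _ => ⟨e, h1, h2, h3, ?_, h5⟩⟩
        intro x
        rw [← hag.1 (e x) (Finset.mem_image_of_mem _ (Finset.mem_univ _))]
        exact h4 x
      · refine ⟨A', fun g' hg' hag _ hP' => ?_⟩
        exfalso
        apply hP
        intro x hx
        rw [hag.1 x.1 hx]
        exact hP' x hx
    · exact ⟨∅, fun g' hg' hag hV' => absurd hV' hV⟩
  · intro g hg Y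
    by_cases hV : V2 k ρ c A' B π
    swap
    · exact ⟨g, hg, Agree.refl _ _, fun hV' => absurd hV' hV⟩
    obtain ⟨g1, hg1, hag, Z, hZ1, hZ2, hZ3⟩ := fin_ext hk h0 g hg.1 (Y ∪ A ∪ A')
    have hAZ : A ⊆ Z := fun a ha => hZ1 (by simp [ha])
    have hA'Z : A' ⊆ Z := fun a ha => hZ1 (by simp [ha])
    have hYZ : Y ⊆ Z := fun a ha => hZ1 (by simp [ha])
    have hg1G : g1 ∈ KS ρ A := ⟨hg1, fun a ha => by
      rw [← hag.1 a (by simp [ha])]; exact hg.2 a ha⟩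
    by_cases hP : ∀ x : ↥B, x.1 ∈ A' → g1 x.1 = (π x).1
    swap
    · exact ⟨g1, hg1G, hag.mono (fun y hy => by simp [hy]), fun _ hP' => absurd hP' hP⟩
    obtain ⟨hAB, hBc, hπ, hπl, hA'c, hπA⟩ := hV
    have hg1A' : ∀ a ∈ A', g1 a ∈ A' := by
      intro a ha
      rw [hP ⟨a, hAB ha⟩ ha]
      exact hπA ⟨a, hAB ha⟩ ha
    let sA : ℕ → ↥A' → ↥A' := fun i => if i < k then res A' (c i) else res A' g1
    let sB : ℕ → ↥B → ↥B := fun i => if i < k then res B (c i) else π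
    let sZ : ℕ → ↥Z → ↥Z := fun i => if i < k then res Z (c i) else res Z g1
    have sA1 : ∀ i < k, ∀ x, (sA i x).1 = c i x.1 := by
      intro i hi x; simp only [sA, if_pos hi]; exact res_val (hA'c i hi) x
    have sB1 : ∀ i < k, ∀ x, (sB i x).1 = c i x.1 := by
      intro i hi x; simp only [sB, if_pos hi]; exact res_val (hBc i hi) x
    have sZ1 : ∀ i < k, ∀ x, (sZ i x).1 = c i x.1 := by
      intro i hi x; simp only [sZ, if_pos hi]; exact res_val (hZ2 i hi) x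
    have sA2 : ∀ x, (sA k x).1 = g1 x.1 := by
      intro x; simp only [sA, lt_irrefl, if_false]; exact res_val hg1A' x
    have sB2 : ∀ x, sB k x = π x := by
      intro x; simp only [sB, lt_irrefl, if_false]
    have sZ2 : ∀ x, (sZ k x).1 = g1 x.1 := by
      intro x; simp only [sZ, lt_irrefl, if_false]; exact res_val hZ3 x
    have hB : Valid LQ (k + 1) (fun b : ↥B => ρ b.1) sB := by
      refine ⟨fun x y hxy => hk.mono x.1 y.1 hxy, ?_, ?_⟩
      · intro i hi x y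
        rcases Nat.lt_succ_iff_lt_or_eq.1 hi with h | h
        · rw [← Subtype.coe_le_coe, sB1 i h, sB1 i h, (c i).le_iff_le, Subtype.coe_le_coe]
        · rw [h, sB2, sB2]; exact hπ x y
      · intro i hi x
        rcases Nat.lt_succ_iff_lt_or_eq.1 hi with h | h
        · rw [sB1 i h]; exact hk.lev i h x.1
        · rw [h, sB2]; exact hπl x
    have hZ : Valid LQ (k + 1) (fun b : ↥Z => ρ b.1) sZ := by
      refine ⟨fun x y hxy => hk.mono x.1 y.1 hxy, ?_, ?_⟩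
      · intro i hi x y
        rcases Nat.lt_succ_iff_lt_or_eq.1 hi with h | h
        · rw [← Subtype.coe_le_coe, sZ1 i h, sZ1 i h, (c i).le_iff_le, Subtype.coe_le_coe]
        · rw [h, ← Subtype.coe_le_coe, sZ2, sZ2, g1.le_iff_le, Subtype.coe_le_coe]
      · intro i hi x
        rcases Nat.lt_succ_iff_lt_or_eq.1 hi with h | h
        · rw [sZ1 i h]; exact hk.lev i h x.1
        · rw [h, sZ2]; exact hg1 x.1
    let ι : ↥A' → ↥B := fun a => ⟨a.1, hAB a.2⟩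
    let j : ↥A' → ↥Z := fun a => ⟨a.1, hA'Z a.2⟩
    have hι : IsEmb (k + 1) (fun a : ↥A' => ρ a.1) sA (fun b : ↥B => ρ b.1) sB ι := by
      refine ⟨fun x y => Iff.rfl, fun x => rfl, ?_⟩
      intro i hi x
      apply Subtype.ext
      rcases Nat.lt_succ_iff_lt_or_eq.1 hi with h | h
      · rw [sB1 i h]; exact sA1 i h x
      · rw [h, sB2]
        show (sA k x).1 = _
        rw [sA2]
        exact hP (ι x) x.2
    have hj : IsEmb (k + 1) (fun a : ↥A' => ρ a.1) sA (fun b : ↥Z => ρ b.1) sZ j := by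
      refine ⟨fun x y => Iff.rfl, fun x => rfl, ?_⟩
      intro i hi x
      apply Subtype.ext
      rcases Nat.lt_succ_iff_lt_or_eq.1 hi with h | h
      · rw [sZ1 i h]; exact sA1 i h x
      · rw [h, sZ2]; exact sA2 x
    obtain ⟨C, hC1, hC2, rC, sC, iZ, iB, e, h1, h2, h3, h4, h5, h6, he, hez⟩ :=
      embed_amalg (L := LQ) (L' := LQ) (fun a b c => lt_trans) (Nat.le_succ k) (fun q : ℚ => q)
        (fun _ _ h => h) hk hB hZ hι hj (fun z : ↥Z => z.1)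
        ⟨fun x y => Iff.rfl, fun x => rfl, fun i hi x => sZ1 i hi x⟩
    obtain ⟨g2, hg2, hg2l⟩ := hom_emb h0 h0 e (fun x => e (sC k x)) he.le
      (fun x y => by rw [he.le, h1.le k (Nat.lt_succ_self k)])
      (fun x => by rw [he.lev, he.lev, h1.lev k (Nat.lt_succ_self k)])
    have hg2Z : ∀ z ∈ Z, g2 z = g1 z := by
      intro z hz
      have e1 := hg2 (iZ ⟨z, hz⟩)
      rw [hez, ← h2.eqv k (Nat.lt_succ_self k), hez, sZ2] at e1
      exact e1
    have hg1Zinv : ∀ z ∈ Z, g1⁻¹ z ∈ Z := by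
      intro z hz
      have hsurj : Function.Surjective (res Z g1) := by
        apply Finite.surjective_of_injective
        intro x y hxy
        apply Subtype.ext
        apply g1.injective
        rw [← res_val hZ3, ← res_val hZ3, hxy]
      obtain ⟨w, hw⟩ := hsurj ⟨z, hz⟩
      have e1 : g1 w.1 = z := by rw [← res_val hZ3, hw]
      rw [← e1, RelIso.inv_apply_self]
      exact w.2
    have hag2 : Agree g1 g2 Z := by
      refine ⟨fun z hz => (hg2Z z hz).symm, fun z hz => ?_⟩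
      have e1 := hg2Z _ (hg1Zinv z hz)
      rw [RelIso.apply_inv_self] at e1
      have e2 : g2⁻¹ (g2 (g1⁻¹ z)) = g1⁻¹ z := RelIso.inv_apply_self _ _
      rw [e1] at e2
      exact e2.symm
    refine ⟨g2, ⟨hg2l, ?_⟩, ?_, ?_⟩
    · intro a ha
      rw [hg2Z a (hAZ ha)]
      exact hg1G.2 a ha
    · exact (hag.mono (fun y hy => by simp [hy])).trans (hag2.mono hYZ)
    · intro _ _
      refine ⟨fun b => e (iB b), ?_, ?_, ?_, ?_, ?_⟩
      · intro x y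
        rw [he.le, h3.le]
      · intro x
        rw [he.lev]
        exact h3.lev x
      · intro i hi x y hxy
        have e1 : sB i x = y := Subtype.ext ((sB1 i hi x).trans hxy.symm)
        show e (iB y) = c i (e (iB x))
        rw [← e1, h3.eqv i (Nat.lt_succ_of_lt hi), he.eqv i hi]
      · intro x
        show g2 (e (iB x)) = e (iB (π x))
        rw [hg2, ← h3.eqv k (Nat.lt_succ_self k), sB2]
      · intro x hx
        have e1 := h4 ⟨x.1, hx⟩
        have e2 : ι ⟨x.1, hx⟩ = x := rfl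
        rw [e2] at e1
        show e (iB x) = x.1
        rw [e1, hez]

/-- The index set of the second family. -/
abbrev J2 (Ω : Type) := Σ _ : Finset Ω, Σ B : Finset Ω, (↥B → ↥B)

/-- All requirements. -/
def UU (k : ℕ) (ρ : Ω → ℚ) (c : ℕ → (Ω ≃o Ω)) : Ω ⊕ J2 Ω → Set (Ω ≃o Ω)
  | Sum.inl x => U1 k c x
  | Sum.inr ⟨A', B, π⟩ => U2 k ρ c A' B π

theorem UU_OD [Countable Ω] {k : ℕ} {ρ : Ω → ℚ} {c : ℕ → (Ω ≃o Ω)} (hk : Gen LQ k ρ c)
    (h0 : Gen LQ 0 ρ (fun _ => 1)) (A : Finset Ω) (i : Ω ⊕ J2 Ω) :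
    OD (KS ρ A) (UU k ρ c i) := by
  rcases i with x | ⟨A', B, π⟩
  · exact U1_OD hk h0 A x
  · exact U2_OD hk h0 A A' B π

/-- Meeting all requirements gives a generic tuple. -/
theorem gen_succ {k : ℕ} {ρ : Ω → ℚ} {c : ℕ → (Ω ≃o Ω)} (hk : Gen LQ k ρ c)
    (g : Ω ≃o Ω) (hg : ∀ x, ρ (g x) = ρ x) (hU : ∀ i, g ∈ UU k ρ c i) :
    Gen LQ (k + 1) ρ (Function.update c k g) := by
  classical
  have hup1 : ∀ i < k, Function.update c k g i = c i := fun i hi =>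
    Function.update_of_ne (ne_of_lt hi) _ _
  have hup2 : Function.update c k g k = g := Function.update_self _ _ _
  refine ⟨hk.mono, ?_, ?_, ?_⟩
  · intro i hi x
    rcases Nat.lt_succ_iff_lt_or_eq.1 hi with h | h
    · rw [hup1 i h]; exact hk.lev i h x
    · rw [h, hup2]; exact hg x
  · intro Y
    have hx : ∀ x, ∃ Z : Finset Ω, x ∈ Z ∧ (∀ i < k, ∀ z ∈ Z, c i z ∈ Z) ∧ ∀ z ∈ Z, g z ∈ Z :=
      fun x => hU (Sum.inl x)
    choose F hF1 hF2 hF3 using hx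
    refine ⟨Y.biUnion F, ?_, ?_⟩
    · intro y hy
      rw [Finset.mem_biUnion]
      exact ⟨y, hy, hF1 y⟩
    · intro i hi z hz
      rw [Finset.mem_biUnion] at hz ⊢
      obtain ⟨y, hy, hz⟩ := hz
      refine ⟨y, hy, ?_⟩
      rcases Nat.lt_succ_iff_lt_or_eq.1 hi with h | h
      · rw [hup1 i h]; exact hF2 y i h z hz
      · rw [h, hup2]; exact hF3 y z hz
  · intro A B _ _ _ _ rA sA rB sB hV ι hι j hj
    let _ := Fintype.ofFinite A
    let _ := Fintype.ofFinite B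
    obtain ⟨e1, he1, hej⟩ := hk.ext A B rA sA rB sB (hV.mono_k (Nat.le_succ k)) ι
      (hι.mono_k (Nat.le_succ k)) j
      ⟨hj.le, hj.lev, fun i hi x => by
        have := hj.eqv i (Nat.lt_succ_of_lt hi) x
        rw [hup1 i hi] at this
        exact this⟩
    have hjk : ∀ x, j (sA k x) = g (j x) := by
      intro x
      have := hj.eqv k (Nat.lt_succ_self k) x
      rw [hup2] at this
      exact this
    let Bf : Finset Ω := Finset.univ.image e1
    let Af : Finset Ω := Finset.univ.image j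
    have hmem : ∀ b, e1 b ∈ Bf := fun b => Finset.mem_image_of_mem _ (Finset.mem_univ _)
    have hinv : ∀ b : ↥Bf, ∃ b', e1 b' = b.1 := by
      intro b
      have := b.2
      rw [Finset.mem_image] at this
      obtain ⟨b', _, h⟩ := this
      exact ⟨b', h⟩
    choose inv hinv using hinv
    have hinve : ∀ b, ∀ h : e1 b ∈ Bf, inv ⟨e1 b, h⟩ = b := fun b h => he1.inj (hinv _)
    let π : ↥Bf → ↥Bf := fun b => ⟨e1 (sB k (inv b)), hmem _⟩
    have hAf : ∀ x : ↥Bf, x.1 ∈ Af → ∃ a, j a = x.1 ∧ inv x = ι a := by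
      intro x hx
      rw [Finset.mem_image] at hx
      obtain ⟨a, _, ha⟩ := hx
      refine ⟨a, ha, ?_⟩
      apply he1.inj
      rw [hinv, hej, ha]
    have hval : V2 k ρ c Af Bf π := by
      refine ⟨?_, ?_, ?_, ?_, ?_, ?_⟩
      · intro x hx
        rw [Finset.mem_image] at hx ⊢
        obtain ⟨a, _, rfl⟩ := hx
        exact ⟨ι a, Finset.mem_univ _, hej a⟩
      · intro i hi b hb
        rw [Finset.mem_image] at hb ⊢
        obtain ⟨b, _, rfl⟩ := hb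
        exact ⟨sB i b, Finset.mem_univ _, he1.eqv i hi b⟩
      · intro x y
        rw [← Subtype.coe_le_coe, ← Subtype.coe_le_coe]
        show e1 (sB k (inv x)) ≤ e1 (sB k (inv y)) ↔ x.1 ≤ y.1
        rw [he1.le, hV.le k (Nat.lt_succ_self k), ← he1.le, hinv, hinv]
      · intro x
        show ρ (e1 (sB k (inv x))) = ρ x.1
        rw [he1.lev, hV.lev k (Nat.lt_succ_self k), ← he1.lev, hinv]
      · intro i hi a ha
        rw [Finset.mem_image] at ha ⊢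
        obtain ⟨a, _, rfl⟩ := ha
        refine ⟨sA i a, Finset.mem_univ _, ?_⟩
        have := hj.eqv i (Nat.lt_succ_of_lt hi) a
        rw [hup1 i hi] at this
        exact this
      · intro x hx
        obtain ⟨a, ha1, ha2⟩ := hAf x hx
        show e1 (sB k (inv x)) ∈ Af
        rw [ha2, ← hι.eqv k (Nat.lt_succ_self k), hej]
        exact Finset.mem_image_of_mem _ (Finset.mem_univ _)
    have hprem : ∀ x : ↥Bf, x.1 ∈ Af → g x.1 = (π x).1 := by
      intro x hx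
      obtain ⟨a, ha1, ha2⟩ := hAf x hx
      show g x.1 = e1 (sB k (inv x))
      rw [ha2, ← hι.eqv k (Nat.lt_succ_self k), hej, hjk, ha1]
    obtain ⟨e, he, hel, hec, heg, heA⟩ := hU (Sum.inr ⟨Af, Bf, π⟩) hval hprem
    refine ⟨fun b => e ⟨e1 b, hmem b⟩, ⟨?_, ?_, ?_⟩, ?_⟩
    · intro x y
      rw [he, ← he1.le x y]
      exact Iff.rfl
    · intro x
      rw [hel]
      exact he1.lev x
    · intro i hi x
      rcases Nat.lt_succ_iff_lt_or_eq.1 hi with h | h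
      · rw [hup1 i h]
        apply hec i h
        exact he1.eqv i h x
      · subst h
        rw [hup2, heg]
        congr 1
        apply Subtype.ext
        show e1 (sB i x) = e1 (sB i (inv _))
        rw [hinve]
    · intro a
      have h1 : e1 (ι a) ∈ Af := by
        rw [hej]; exact Finset.mem_image_of_mem _ (Finset.mem_univ _)
      show e ⟨e1 (ι a), hmem (ι a)⟩ = j a
      rw [heA ⟨e1 (ι a), hmem (ι a)⟩ h1]
      exact hej a

end Pool.Agent.Helper798.UPoset
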