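import Mathlib
import Pool.Agent.Helper798.UPoset.Amalg
import Pool.Agent.Helper798.UPoset.BackForth
import Pool.Agent.Helper798.UPoset.Fusion
import Pool.Agent.Helper798.UPoset.Level
import Pool.Agent.Helper798.UPoset.Tuple

set_option autoImplicit false

namespace Pool.Agent.Helper798.UPoset

variable {Ω : Type} [PartialOrder Ω]

theorem not_stuck [Countable Ω] {ρ : Ω → ℚ} (h0 : Gen LQ 0 ρ (fun _ => 1))
    (H : Subgroup (Ω ≃o Ω)) (hH : Cardinal.mk ((Ω ≃o Ω) ⧸ H) < Cardinal.continuum)
    (hn : ∀ A : Finset Ω, ¬ KS ρ A ≤ H)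
    (k : ℕ) (c : ℕ → (Ω ≃o Ω)) (hk : Gen LQ k ρ c) (A : Finset Ω)
    (hA : ∀ i < k, ∀ a ∈ A, c i a ∈ A) :
    ∃ g ∈ H, ∃ f ∈ KS ρ A, (∀ i < k, f * c i = c i * f) ∧ f * g * f⁻¹ ∉ H ∧
      Gen LQ (k + 2) ρ (Function.update (Function.update c k g) (k + 1) (f * g * f⁻¹)) := by
  classical
  obtain ⟨g, hgH, hgA, hgU⟩ := small_index_meets H (KS ρ A) hH (KS_closed ρ A) (UU k ρ c)
    (UU_OD hk h0 A)
  have hk1 := gen_succ hk g hgA.1 hgU
  have hex : ∃ g' ∈ KS ρ A, g' ∉ H ∧ (∀ i, g' ∈ UU k ρ c i) ∧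
      ∀ i, g' ∈ UU (k + 1) ρ (Function.update c k g) i := by
    by_contra hcon
    push Not at hcon
    apply hn A
    apply comeagre_subgroup H (KS ρ A) (KS_closed ρ A)
      (fun i : (Ω ⊕ J2 Ω) ⊕ (Ω ⊕ J2 Ω) =>
        Sum.elim (UU k ρ c) (UU (k + 1) ρ (Function.update c k g)) i)
    · intro i
      rcases i with i | i
      · exact UU_OD hk h0 A i
      · exact UU_OD hk1 h0 A i
    · intro g' hg' hU
      by_contra hg'H
      obtain ⟨i, hi⟩ := hcon g' hg' hg'H (fun i => hU (Sum.inl i))
      exact hi (hU (Sum.inr i))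
  obtain ⟨g', hg'A, hg'H, hU1, hU2⟩ := hex
  have hk1' := gen_succ hk g' hg'A.1 hU1
  have hk2 := gen_succ hk1 g' hg'A.1 hU2
  have hup1 : ∀ g : Ω ≃o Ω, ∀ i < k, Function.update c k g i = c i := fun g i hi =>
    Function.update_of_ne (ne_of_lt hi) _ _
  have hup2 : ∀ g : Ω ≃o Ω, Function.update c k g k = g := fun g => Function.update_self _ _ _
  obtain ⟨f, hf1, hf2, hf3⟩ := backforth' hk1 hk1' A (fun x => x)
    (by
      intro i hi a ha
      rcases Nat.lt_succ_iff_lt_or_eq.1 hi with h | h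
      · rw [hup1 g i h]; exact hA i h a ha
      · rw [h, hup2, hgA.2 a ha]; exact ha)
    (fun x _ y _ => Iff.rfl) (fun x _ => rfl)
    (by
      intro i hi a ha
      rcases Nat.lt_succ_iff_lt_or_eq.1 hi with h | h
      · rw [hup1 g i h, hup1 g' i h]
      · rw [h, hup2, hup2, hgA.2 a ha, hg'A.2 a ha])
  have hfg : f * g * f⁻¹ = g' := by
    have h1 : f * g = g' * f := by
      ext x
      rw [RelIso.mul_apply, RelIso.mul_apply]
      have := hf3 k (Nat.lt_succ_self k) x
      rw [hup2, hup2] at this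
      exact this
    rw [h1, mul_inv_cancel_right]
  refine ⟨g, hgH, f, ⟨hf2, hf1⟩, ?_, ?_, ?_⟩
  · intro i hi
    ext x
    rw [RelIso.mul_apply, RelIso.mul_apply]
    have := hf3 i (Nat.lt_succ_of_lt hi) x
    rw [hup1 g i hi, hup1 g' i hi] at this
    exact this
  · rw [hfg]; exact hg'H
  · rw [hfg]; exact hk2

/-- States of the main construction. -/
structure St (ρ : Ω → ℚ) where
  k : ℕ
  c : ℕ → (Ω ≃o Ω)
  gen : Gen LQ k ρ c
  W : Finset (Ω ≃o Ω)
  A : Finset Ω

theorem open_rho [Countable Ω] {ρ : Ω → ℚ} (h0 : Gen LQ 0 ρ (fun _ => 1))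
    (H : Subgroup (Ω ≃o Ω)) (hH : Cardinal.mk ((Ω ≃o Ω) ⧸ H) < Cardinal.continuum) :
    ∃ A : Finset Ω, KS ρ A ≤ H := by
  classical
  by_contra hcon
  push Not at hcon
  rcases isEmpty_or_nonempty Ω with hemp | hne
  · apply hcon ∅
    intro g _
    have : g = 1 := by
      ext x
      exact isEmptyElim x
    rw [this]
    exact H.one_mem
  obtain ⟨en, hen⟩ := exists_surjective_nat Ω
  have step : ∀ (n : ℕ) (s : St ρ), ∃ (s' : St ρ) (g f : Ω ≃o Ω),
      s.A ⊆ s'.A ∧ en n ∈ s'.A ∧ (∀ w ∈ s.W, ∀ j ≤ n, w⁻¹ (en j) ∈ s'.A) ∧ f ∈ KS ρ s'.A ∧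
      (∀ i < s.k, f * s.c i = s.c i * f) ∧ g ∈ H ∧ f * g * f⁻¹ ∉ H ∧ s'.k = s.k + 2 ∧
      (∀ i < s.k, s'.c i = s.c i) ∧ s'.c s.k = g ∧ s'.c (s.k + 1) = f * g * f⁻¹ ∧
      ∀ w ∈ s.W, w ∈ s'.W ∧ w * f ∈ s'.W := by
    intro n s
    obtain ⟨A', hA1, hA2⟩ := s.gen.fin (s.A ∪ {en n} ∪
      (s.W ×ˢ Finset.range (n + 1)).image (fun p => p.1⁻¹ (en p.2)))
    obtain ⟨g, hg, f, hf, hfc, hfg, hgen⟩ := not_stuck h0 H hH hcon s.k s.c s.gen A' hA2
    refine ⟨⟨s.k + 2, _, hgen, s.W ∪ s.W.image (fun w => w * f), A'⟩, g, f, ?_, ?_, ?_, hf, hfc,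
      hg, hfg, rfl, ?_, ?_, ?_, ?_⟩
    · intro x hx
      exact hA1 (by simp [hx])
    · exact hA1 (by simp)
    · intro w hw j hj
      apply hA1
      apply Finset.mem_union_right
      rw [Finset.mem_image]
      exact ⟨(w, j), by simp [hw]; omega, rfl⟩
    · intro i hi
      show Function.update (Function.update s.c s.k g) (s.k + 1) _ i = _
      rw [Function.update_of_ne (by omega), Function.update_of_ne (by omega)]
    · show Function.update (Function.update s.c s.k g) (s.k + 1) _ s.k = _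
      rw [Function.update_of_ne (by omega), Function.update_self]
    · show Function.update (Function.update s.c s.k g) (s.k + 1) _ (s.k + 1) = _
      rw [Function.update_self]
    · intro w hw
      exact ⟨Finset.mem_union_left _ hw, Finset.mem_union_right _ (Finset.mem_image_of_mem _ hw)⟩
  choose nxt gg ff h1 h2 h3 h4 h5 h6 h7 h8 h9 h10 h11 h12 using step
  let s0 : St ρ := ⟨0, fun _ => 1, h0, {1}, ∅⟩
  let seq : ℕ → St ρ := fun n => Nat.rec s0 (fun n s => nxt n s) n
  have hseq : ∀ n, seq (n + 1) = nxt n (seq n) := fun n => rfl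
  let f : ℕ → (Ω ≃o Ω) := fun n => ff n (seq n)
  let g : ℕ → (Ω ≃o Ω) := fun n => gg n (seq n)
  have hk : ∀ n, (seq (n + 1)).k = (seq n).k + 2 := fun n => h8 n (seq n)
  have hkm : ∀ n m, n ≤ m → (seq n).k ≤ (seq m).k := by
    intro n m hnm
    induction m, hnm using Nat.le_induction with
    | base => exact le_rfl
    | succ m hm ih => rw [hk]; omega
  have hc : ∀ n m, n ≤ m → ∀ i < (seq n).k, (seq m).c i = (seq n).c i := by
    intro n m hnm
    induction m, hnm using Nat.le_induction with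
    | base => intro i hi; rfl
    | succ m hm ih =>
      intro i hi
      have := hkm n m hm
      rw [← ih i hi]
      exact h9 m (seq m) i (by omega)
  have hcg : ∀ n m, n < m → f m * g n = g n * f m ∧
      f m * (f n * g n * (f n)⁻¹) = (f n * g n * (f n)⁻¹) * f m := by
    intro n m hnm
    have e0 : (seq (n + 1)).k ≤ (seq m).k := hkm (n + 1) m hnm
    rw [hk] at e0
    have e1 : (seq m).c (seq n).k = g n := by
      rw [hc (n + 1) m hnm (seq n).k (by rw [hk]; omega)]
      exact h10 n (seq n)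
    have e2 : (seq m).c ((seq n).k + 1) = f n * g n * (f n)⁻¹ := by
      rw [hc (n + 1) m hnm ((seq n).k + 1) (by rw [hk]; omega)]
      exact h11 n (seq n)
    have e3 := h5 m (seq m) (seq n).k (by omega)
    have e4 := h5 m (seq m) ((seq n).k + 1) (by omega)
    rw [e1] at e3
    rw [e2] at e4
    exact ⟨e3, e4⟩
  have hAm : ∀ n m, n ≤ m → (seq n).A ⊆ (seq m).A := by
    intro n m hnm
    induction m, hnm using Nat.le_induction with
    | base => exact subset_rfl
    | succ m hm ih => exact ih.trans (h1 m (seq m))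
  have hen' : ∀ j n, j ≤ n → en j ∈ (seq (n + 1)).A := by
    intro j n hj
    exact hAm (j + 1) (n + 1) (by omega) (h2 j (seq j))
  -- the products along branches
  let a : (ℕ → Bool) → ℕ → (Ω ≃o Ω) := fun α n =>
    Nat.rec 1 (fun n w => w * (if α n then f n else 1)) n
  have ha0 : ∀ α, a α 0 = 1 := fun α => rfl
  have has : ∀ α n, a α (n + 1) = a α n * (if α n then f n else 1) := fun α n => rfl
  have haW : ∀ α n, a α n ∈ (seq n).W := by
    intro α n
    induction n with
    | zero => exact Finset.mem_singleton_self _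
    | succ n ih =>
      rw [has]
      by_cases hα : α n
      · rw [if_pos hα]
        exact (h12 n (seq n) _ ih).2
      · rw [if_neg hα, mul_one]
        exact (h12 n (seq n) _ ih).1
  let Y : ℕ → Finset Ω := fun n => (Finset.range (n + 1)).image en
  have hYm : Monotone Y := by
    intro n m hnm
    apply Finset.image_subset_image
    intro j hj
    rw [Finset.mem_range] at hj ⊢
    omega
  have hYc : ∀ x, ∃ n, x ∈ Y n := by
    intro x
    obtain ⟨n, rfl⟩ := hen x
    exact ⟨n, Finset.mem_image_of_mem _ (Finset.mem_range.2 (Nat.lt_succ_self n))⟩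
  have hag : ∀ α n, Agree (a α n) (a α (n + 1)) (Y n) := by
    intro α n
    rw [has]
    by_cases hα : α n
    · rw [if_pos hα]
      refine ⟨?_, ?_⟩
      · intro y hy
        rw [Finset.mem_image] at hy
        obtain ⟨j, hj, rfl⟩ := hy
        rw [Finset.mem_range] at hj
        rw [RelIso.mul_apply, (h4 n (seq n)).2 (en j) (hen' j n (by omega))]
      · intro y hy
        rw [Finset.mem_image] at hy
        obtain ⟨j, hj, rfl⟩ := hy
        rw [Finset.mem_range] at hj
        have e1 : (a α n)⁻¹ (en j) ∈ (nxt n (seq n)).A :=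
          h3 n (seq n) (a α n) (haW α n) j (by omega)
        have e2 := (KS ρ (nxt n (seq n)).A).inv_mem (h4 n (seq n))
        rw [mul_inv_rev, RelIso.mul_apply]
        exact (e2.2 _ e1).symm
    · rw [if_neg hα, mul_one]
      exact Agree.refl _ _
  have hlim : ∀ α, ∃ u : Ω ≃o Ω, ∀ n, Agree (a α n) u (Y n) := fun α =>
    exists_limit (a α) Y hYm hYc (hag α)
  choose lim hlim using hlim
  -- transfer of an identity to the limit
  have transfer : ∀ (α : ℕ → Bool) (n : ℕ) (u X : Ω ≃o Ω),
      (∀ N, n ≤ N → a α N * u = X * a α N) → lim α * u = X * lim α := by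
    intro α n u X hN
    ext x
    obtain ⟨n1, hn1⟩ := hYc x
    obtain ⟨n2, hn2⟩ := hYc (u x)
    let N := max n (max n1 n2)
    have e1 : x ∈ Y N := hYm (le_trans (le_max_left n1 n2) (le_max_right _ _)) hn1
    have e2 : u x ∈ Y N := hYm (le_trans (le_max_right n1 n2) (le_max_right _ _)) hn2
    have e3 := hN N (le_max_left _ _)
    rw [RelIso.mul_apply, RelIso.mul_apply, ← (hlim α N).1 x e1, ← (hlim α N).1 _ e2,
      ← RelIso.mul_apply, ← RelIso.mul_apply, e3]
  have hdiff : ∀ (α β : ℕ → Bool) (n : ℕ), (∀ m < n, α m = β m) → α n = true → β n = false →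
      (lim β)⁻¹ * lim α ∉ H := by
    intro α β n hm hα hβ hw
    have hP : a α n = a β n := by
      clear hα hβ
      induction n with
      | zero => rfl
      | succ n ih =>
        rw [has, has, ih (fun m hm' => hm m (by omega)), hm n (by omega)]
    let P := a α n
    let c' := f n * g n * (f n)⁻¹
    let X := P * c' * P⁻¹
    have eα : lim α * g n = X * lim α := by
      apply transfer α (n + 1)
      intro N hN
      induction N, hN using Nat.le_induction with
      | base =>
        rw [has, if_pos hα]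
        simp only [X, P, c']
        group
      | succ N hN ih =>
        rw [has]
        by_cases hαN : α N
        · rw [if_pos hαN, mul_assoc, (hcg n N (by omega)).1, ← mul_assoc, ih, mul_assoc]
        · rw [if_neg hαN, mul_one, ih]
    have eβ : lim β * c' = X * lim β := by
      apply transfer β (n + 1)
      intro N hN
      induction N, hN using Nat.le_induction with
      | base =>
        rw [has, hβ, ← hP]
        simp only [X, P, Bool.false_eq_true, if_false, mul_one]
        group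
      | succ N hN ih =>
        rw [has]
        by_cases hβN : β N
        · rw [if_pos hβN, mul_assoc, (hcg n N (by omega)).2, ← mul_assoc, ih, mul_assoc]
        · rw [if_neg hβN, mul_one, ih]
    have e1 : ((lim β)⁻¹ * lim α) * g n * ((lim β)⁻¹ * lim α)⁻¹ = c' := by
      have e2 : lim α * g n * (lim α)⁻¹ = X := by rw [eα, mul_inv_cancel_right]
      have e3 : lim β * c' * (lim β)⁻¹ = X := by rw [eβ, mul_inv_cancel_right]
      calc ((lim β)⁻¹ * lim α) * g n * ((lim β)⁻¹ * lim α)⁻¹
          = (lim β)⁻¹ * (lim α * g n * (lim α)⁻¹) * lim β := by group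
        _ = (lim β)⁻¹ * (lim β * c' * (lim β)⁻¹) * lim β := by rw [e2, e3]
        _ = c' := by group
    apply h7 n (seq n)
    have e4 : ((lim β)⁻¹ * lim α) * g n * ((lim β)⁻¹ * lim α)⁻¹ ∈ H :=
      H.mul_mem (H.mul_mem hw (h6 n (seq n))) (H.inv_mem hw)
    rw [e1] at e4
    exact e4
  have hinj : Function.Injective (fun α : ℕ → Bool => (QuotientGroup.mk (lim α) : (Ω ≃o Ω) ⧸ H)) := by
    intro α β hαβ
    by_contra hne'
    have hex : ∃ n, α n ≠ β n := Function.ne_iff.1 hne'
    have hn1 := Nat.find_spec hex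
    have hn2 : ∀ m < Nat.find hex, α m = β m := by
      intro m hm
      by_contra h
      exact Nat.find_min hex hm h
    have hq1 : (lim α)⁻¹ * lim β ∈ H := QuotientGroup.eq.1 hαβ
    have hq2 : (lim β)⁻¹ * lim α ∈ H := QuotientGroup.eq.1 hαβ.symm
    rcases hαv : α (Nat.find hex) with _ | _
    · rcases hβv : β (Nat.find hex) with _ | _
      · exact hn1 (by rw [hαv, hβv])
      · exact hdiff β α _ (fun m hm => (hn2 m hm).symm) hβv hαv hq1
    · rcases hβv : β (Nat.find hex) with _ | _
      · exact hdiff α β _ hn2 hαv hβv hq2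
      · exact hn1 (by rw [hαv, hβv])
  have hfin := Cardinal.mk_le_of_injective hinj
  rw [← Cardinal.power_def] at hfin
  simp only [Cardinal.mk_bool, Cardinal.mk_nat] at hfin
  rw [Cardinal.two_power_aleph0] at hfin
  exact absurd hH (not_lt.2 hfin)

end Pool.Agent.Helper798.UPoset
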