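import Mathlib
import Pool.Agent.Helper798.UPoset.Amalg
import Pool.Agent.Helper798.UPoset.BackForth
import Pool.Agent.Helper798.UPoset.Fusion
import Pool.Agent.Helper798.UPoset.Level
import Pool.Agent.Helper798.UPoset.Tuple

set_option autoImplicit false

namespace Pool.Agent.Helper798.UPoset

variable {Ω : Type} [PartialOrder Ω]

/-- The order on pairs of levels. -/
abbrev L2 : ℚ × ℚ → ℚ × ℚ → Prop := fun p q => p.1 < q.1 ∧ p.2 < q.2

/-- The trivial relation. -/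
abbrev LU : Unit → Unit → Prop := fun _ _ => True

/-- Requirements for a generic pair of level functions. -/
def U3 (ρ : Ω → ℚ) (A' B : Finset Ω) (β : ↥B → ℚ) : Set (Ω ≃o Ω) :=
  {u | (A' ⊆ B ∧ ∀ x y : ↥B, x < y → β x < β y) →
    (∀ x : ↥B, x.1 ∈ A' → ρ (u⁻¹ x.1) = β x) →
    ∃ e : ↥B → Ω, (∀ x y, e x ≤ e y ↔ x ≤ y) ∧ (∀ x, ρ (e x) = ρ x.1) ∧
      (∀ x, ρ (u⁻¹ (e x)) = β x) ∧ ∀ x : ↥B, x.1 ∈ A' → e x = x.1}

theorem U3_OD [Countable Ω] {ρ : Ω → ℚ} (h0 : Gen LQ 0 ρ (fun _ => 1))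
    (hu : Gen LU 0 (fun _ : Ω => ()) (fun _ => 1)) (A A' B : Finset Ω) (β : ↥B → ℚ) :
    OD (KS (fun _ : Ω => ()) A) (U3 ρ A' B β) := by
  classical
  refine ⟨?_, ?_⟩
  · intro u hu' hU
    by_cases hV : (A' ⊆ B ∧ ∀ x y : ↥B, x < y → β x < β y)
    · by_cases hP : ∀ x : ↥B, x.1 ∈ A' → ρ (u⁻¹ x.1) = β x
      · obtain ⟨e, h1, h2, h3, h4⟩ := hU hV hP
        refine ⟨Finset.univ.image e, fun u' _ hag _ _ => ⟨e, h1, h2, ?_, h4⟩⟩
        intro x
        rw [← hag.2 (e x) (Finset.mem_image_of_mem _ (Finset.mem_univ _))]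
        exact h3 x
      · refine ⟨A', fun u' _ hag _ hP' => ?_⟩
        exfalso
        apply hP
        intro x hx
        rw [hag.2 x.1 hx]
        exact hP' x hx
    · exact ⟨∅, fun u' _ _ hV' => absurd hV' hV⟩
  · intro u0 hu0 Y
    by_cases hV : (A' ⊆ B ∧ ∀ x y : ↥B, x < y → β x < β y)
    swap
    · exact ⟨u0, hu0, Agree.refl _ _, fun hV' => absurd hV' hV⟩
    by_cases hP : ∀ x : ↥B, x.1 ∈ A' → ρ (u0⁻¹ x.1) = β x
    swap
    · exact ⟨u0, hu0, Agree.refl _ _, fun _ hP' => absurd hP' hP⟩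
    obtain ⟨hAB, hβ⟩ := hV
    let Z : Finset Ω := A ∪ A' ∪ Y ∪ Y.image (⇑u0)
    have hAZ : ∀ a ∈ A, a ∈ Z := fun a ha => by simp [Z, ha]
    have hA'Z : ∀ a ∈ A', a ∈ Z := fun a ha => by simp [Z, ha]
    have hYZ : ∀ a ∈ Y, a ∈ Z := fun a ha => by simp [Z, ha]
    have huYZ : ∀ a ∈ Y, u0 a ∈ Z := fun a ha =>
      Finset.mem_union_right _ (Finset.mem_image_of_mem _ ha)
    have hB : Valid L2 0 (fun b : ↥B => (ρ b.1, β b)) (fun _ => id) :=
      ⟨fun x y hxy => ⟨h0.mono x.1 y.1 hxy, hβ x y hxy⟩,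
        fun i hi => absurd hi (Nat.not_lt_zero i), fun i hi => absurd hi (Nat.not_lt_zero i)⟩
    have hZ : Valid L2 0 (fun z : ↥Z => (ρ z.1, ρ (u0⁻¹ z.1))) (fun _ => id) :=
      ⟨fun x y hxy => ⟨h0.mono x.1 y.1 hxy, h0.mono _ _ (by
          rw [u0⁻¹.lt_iff_lt]; exact hxy)⟩,
        fun i hi => absurd hi (Nat.not_lt_zero i), fun i hi => absurd hi (Nat.not_lt_zero i)⟩
    let ι : ↥A' → ↥B := fun a => ⟨a.1, hAB a.2⟩
    let j : ↥A' → ↥Z := fun a => ⟨a.1, hA'Z a.1 a.2⟩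
    have hι : IsEmb 0 (fun a : ↥A' => (ρ a.1, ρ (u0⁻¹ a.1))) (fun _ => id)
        (fun b : ↥B => (ρ b.1, β b)) (fun _ => id) ι :=
      ⟨fun x y => Iff.rfl, fun x => Prod.ext rfl (hP (ι x) x.2).symm,
        fun i hi => absurd hi (Nat.not_lt_zero i)⟩
    have hj : IsEmb 0 (fun a : ↥A' => (ρ a.1, ρ (u0⁻¹ a.1))) (fun _ => id)
        (fun z : ↥Z => (ρ z.1, ρ (u0⁻¹ z.1))) (fun _ => id) j :=
      ⟨fun x y => Iff.rfl, fun x => rfl, fun i hi => absurd hi (Nat.not_lt_zero i)⟩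
    obtain ⟨C, hC1, hC2, rC, sC, iZ, iB, e, h1, h2, h3, h4, h5, h6, he, hez⟩ :=
      embed_amalg (L := L2) (L' := LQ) (fun a b c h h' => ⟨h.1.trans h'.1, h.2.trans h'.2⟩)
        (le_refl 0) (fun p : ℚ × ℚ => p.1) (fun _ _ h => h.1) h0 hB hZ hι hj (fun z : ↥Z => z.1)
        ⟨fun x y => Iff.rfl, fun x => rfl, fun i hi => absurd hi (Nat.not_lt_zero i)⟩
    obtain ⟨e', he', he'z⟩ := h0.ext ↥Z C (fun z : ↥Z => ρ (u0⁻¹ z.1)) (fun _ => id)
      (fun x => (rC x).2) sC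
      ⟨fun x y hxy => (h1.mono x y hxy).2, fun i hi => absurd hi (Nat.not_lt_zero i),
        fun i hi => absurd hi (Nat.not_lt_zero i)⟩ iZ
      ⟨h2.le, fun x => congrArg Prod.snd (h2.lev x), fun i hi => absurd hi (Nat.not_lt_zero i)⟩
      (fun z => u0⁻¹ z.1)
      ⟨fun x y => u0⁻¹.le_iff_le, fun x => rfl, fun i hi => absurd hi (Nat.not_lt_zero i)⟩
    obtain ⟨g, hg, _⟩ := hom_emb hu hu e e' he.le he'.le (fun _ => rfl)
    have hgZ : ∀ z ∈ Z, g z = u0⁻¹ z := by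
      intro z hz
      have e1 := hg (iZ ⟨z, hz⟩)
      rw [hez, he'z] at e1
      exact e1
    have hginv : ∀ z ∈ Z, g⁻¹ (u0⁻¹ z) = z := by
      intro z hz
      rw [← hgZ z hz, RelIso.inv_apply_self]
    refine ⟨g⁻¹, ⟨fun _ => rfl, ?_⟩, ⟨?_, ?_⟩, ?_⟩
    · intro a ha
      have e1 := hginv a (hAZ a ha)
      have e2 := ((KS (fun _ : Ω => ()) A).inv_mem hu0).2 a ha
      rw [e2] at e1
      exact e1
    · intro y hy
      have e1 := hginv (u0 y) (huYZ y hy)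
      rw [RelIso.inv_apply_self] at e1
      exact e1.symm
    · intro y hy
      rw [inv_inv, hgZ y (hYZ y hy)]
    · intro _ _
      refine ⟨fun b => e (iB b), ?_, ?_, ?_, ?_⟩
      · intro x y
        rw [he.le, h3.le]
      · intro x
        rw [he.lev, h3.lev]
      · intro x
        rw [inv_inv]
        show ρ (g (e (iB x))) = β x
        rw [hg, he'.lev, h3.lev]
      · intro x hx
        have e1 := h4 ⟨x.1, hx⟩
        have e2 : ι ⟨x.1, hx⟩ = x := rfl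
        rw [e2] at e1
        show e (iB x) = x.1
        rw [e1, hez]

/-- Index set of the third family. -/
abbrev J3 (Ω : Type) := Σ _ : Finset Ω, Σ B : Finset Ω, (↥B → ℚ)

theorem gen_pair {ρ : Ω → ℚ} (h0 : Gen LQ 0 ρ (fun _ => 1)) (u : Ω ≃o Ω)
    (hU : ∀ i : J3 Ω, u ∈ U3 ρ i.1 i.2.1 i.2.2) :
    Gen L2 0 (fun x => (ρ x, ρ (u⁻¹ x))) (fun _ => 1) := by
  classical
  refine ⟨?_, ?_, ?_, ?_⟩
  · intro x y hxy
    exact ⟨h0.mono x y hxy, h0.mono _ _ (by rw [u⁻¹.lt_iff_lt]; exact hxy)⟩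
  · intro i hi; exact absurd hi (Nat.not_lt_zero i)
  · intro Y; exact ⟨Y, subset_rfl, fun i hi => absurd hi (Nat.not_lt_zero i)⟩
  · intro A B _ _ _ _ rA sA rB sB hV ι hι j hj
    let _ := Fintype.ofFinite A
    let _ := Fintype.ofFinite B
    obtain ⟨e1, he1, hej⟩ := h0.ext A B (fun x => (rA x).1) sA (fun x => (rB x).1) sB
      ⟨fun x y hxy => (hV.mono x y hxy).1, fun i hi => absurd hi (Nat.not_lt_zero i),
        fun i hi => absurd hi (Nat.not_lt_zero i)⟩ ι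
      ⟨hι.le, fun x => congrArg Prod.fst (hι.lev x), fun i hi => absurd hi (Nat.not_lt_zero i)⟩ j
      ⟨hj.le, fun x => congrArg Prod.fst (hj.lev x), fun i hi => absurd hi (Nat.not_lt_zero i)⟩
    let Bf : Finset Ω := Finset.univ.image e1
    let Af : Finset Ω := Finset.univ.image j
    have hmem : ∀ b, e1 b ∈ Bf := fun b => Finset.mem_image_of_mem _ (Finset.mem_univ _)
    have hinv : ∀ b : ↥Bf, ∃ b', e1 b' = b.1 := by
      intro b
      have := b.2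
      rw [Finset.mem_image] at this
      obtain ⟨b', _, h⟩ := this
      exact ⟨b', h⟩
    choose inv hinv using hinv
    have hinve : ∀ b, ∀ h : e1 b ∈ Bf, inv ⟨e1 b, h⟩ = b := fun b h => he1.inj (hinv _)
    have hAf : ∀ x : ↥Bf, x.1 ∈ Af → ∃ a, j a = x.1 ∧ inv x = ι a := by
      intro x hx
      rw [Finset.mem_image] at hx
      obtain ⟨a, _, ha⟩ := hx
      refine ⟨a, ha, ?_⟩
      apply he1.inj
      rw [hinv, hej, ha]
    obtain ⟨e, he, hel, heβ, heA⟩ := hU ⟨Af, Bf, fun b => (rB (inv b)).2⟩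
      (by
        refine ⟨?_, ?_⟩
        · intro x hx
          rw [Finset.mem_image] at hx ⊢
          obtain ⟨a, _, rfl⟩ := hx
          exact ⟨ι a, Finset.mem_univ _, hej a⟩
        · intro x y hxy
          apply (hV.mono _ _ _).2
          rw [← he1.lt, hinv, hinv]
          exact hxy)
      (by
        intro x hx
        obtain ⟨a, ha1, ha2⟩ := hAf x hx
        show ρ (u⁻¹ x.1) = (rB (inv x)).2
        rw [ha2, hι.lev, ← hj.lev, ha1])
    refine ⟨fun b => e ⟨e1 b, hmem b⟩, ⟨?_, ?_, ?_⟩, ?_⟩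
    · intro x y
      rw [he, ← he1.le x y]
      exact Iff.rfl
    · intro x
      apply Prod.ext
      · show ρ (e ⟨e1 x, hmem x⟩) = (rB x).1
        rw [hel]
        exact he1.lev x
      · show ρ (u⁻¹ (e ⟨e1 x, hmem x⟩)) = (rB x).2
        rw [heβ]
        show (rB (inv _)).2 = (rB x).2
        rw [hinve]
    · intro i hi; exact absurd hi (Nat.not_lt_zero i)
    · intro a
      have h1 : e1 (ι a) ∈ Af := by
        rw [hej]; exact Finset.mem_image_of_mem _ (Finset.mem_univ _)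
      show e ⟨e1 (ι a), hmem (ι a)⟩ = j a
      rw [heA ⟨e1 (ι a), hmem (ι a)⟩ h1]
      exact hej a

theorem open_all [Countable Ω] {ρ : Ω → ℚ} (h0 : Gen LQ 0 ρ (fun _ => 1))
    (hu : Gen LU 0 (fun _ : Ω => ()) (fun _ => 1))
    (H : Subgroup (Ω ≃o Ω)) (hH : Cardinal.mk ((Ω ≃o Ω) ⧸ H) < Cardinal.continuum)
    (A : Finset Ω) (hA : KS ρ A ≤ H) : KS (fun _ : Ω => ()) A ≤ H := by
  classical
  obtain ⟨h, hhH, hhA, hhU⟩ := small_index_meets H (KS (fun _ : Ω => ()) A) hH (KS_closed _ A)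
    (fun i : J3 Ω => U3 ρ i.1 i.2.1 i.2.2) (fun i => U3_OD h0 hu A _ _ _)
  have gh := gen_pair h0 h hhU
  apply comeagre_subgroup H _ (KS_closed _ A)
    (fun i : J3 Ω => U3 ρ i.1 i.2.1 i.2.2) (fun i => U3_OD h0 hu A _ _ _)
  intro u huA hUU
  have gu := gen_pair h0 u hUU
  have hinvA : ∀ g ∈ KS (fun _ : Ω => ()) A, ∀ a ∈ A, g⁻¹ a = a := fun g hg a ha =>
    ((KS (fun _ : Ω => ()) A).inv_mem hg).2 a ha
  obtain ⟨f, hf1, hf2, _⟩ := backforth' gh gu A (fun x => x)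
    (fun i hi => absurd hi (Nat.not_lt_zero i)) (fun _ _ _ _ => Iff.rfl)
    (by
      intro x hx
      show (ρ x, ρ (u⁻¹ x)) = (ρ x, ρ (h⁻¹ x))
      rw [hinvA u huA x hx, hinvA h hhA x hx])
    (fun i hi => absurd hi (Nat.not_lt_zero i))
  have hfl : ∀ x, ρ (f x) = ρ x := fun x => congrArg Prod.fst (hf2 x)
  have hfl2 : ∀ x, ρ (u⁻¹ (f x)) = ρ (h⁻¹ x) := fun x => congrArg Prod.snd (hf2 x)
  have hfH : f ∈ H := hA ⟨hfl, hf1⟩
  have hk : u⁻¹ * f * h ∈ H := by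
    apply hA
    refine ⟨?_, ?_⟩
    · intro x
      rw [RelIso.mul_apply, RelIso.mul_apply, hfl2, RelIso.inv_apply_self]
    · intro a ha
      rw [RelIso.mul_apply, RelIso.mul_apply, hhA.2 a ha, hf1 a ha, hinvA u huA a ha]
  have h3 : f * h * (u⁻¹ * f * h)⁻¹ ∈ H := H.mul_mem (H.mul_mem hfH hhH) (H.inv_mem hk)
  have h4 : f * h * (u⁻¹ * f * h)⁻¹ = u := by group
  rwa [h4] at h3

end Pool.Agent.Helper798.UPoset
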