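import Mathlib
import Pool.Agent.Helper798.UPoset.Amalg
import Pool.Agent.Helper798.UPoset.BackForth
import Pool.Agent.Helper798.UPoset.Fusion
import Pool.Agent.Helper798.UPoset.Level
import Pool.Agent.Helper798.UPoset.Tuple
import Pool.Agent.Helper798.UPoset.Pair
import Pool.Agent.Helper798.UPoset.Open

set_option autoImplicit false

namespace Pool.Agent.Helper798.UPoset

variable {Ω : Type} [PartialOrder Ω]

/-- The pointwise stabiliser of a finite set. -/
abbrev GA (A : Finset Ω) : Subgroup (Ω ≃o Ω) := KS (fun _ : Ω => ()) A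

theorem mem_GA {A : Finset Ω} {g : Ω ≃o Ω} : g ∈ GA A ↔ ∀ a ∈ A, g a = a :=
  ⟨fun h => h.2, fun h => ⟨fun _ => rfl, h⟩⟩

theorem free_move [Countable Ω] (hu : Gen LU 0 (fun _ : Ω => ()) (fun _ => 1))
    (A X Y : Finset Ω) :
    ∃ k ∈ GA A, ∀ x ∈ X, ∀ y ∈ Y, (k x ≤ y → ∃ a ∈ A, x ≤ a ∧ a ≤ y) ∧
      (y ≤ k x → ∃ a ∈ A, y ≤ a ∧ a ≤ x) := by
  classical
  let B : Finset Ω := A ∪ X
  let Z : Finset Ω := A ∪ Y
  have hB : Valid LU 0 (fun _ : ↥B => ()) (fun _ => id) :=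
    ⟨fun _ _ _ => trivial, fun i hi => absurd hi (Nat.not_lt_zero i),
      fun i hi => absurd hi (Nat.not_lt_zero i)⟩
  have hZ : Valid LU 0 (fun _ : ↥Z => ()) (fun _ => id) :=
    ⟨fun _ _ _ => trivial, fun i hi => absurd hi (Nat.not_lt_zero i),
      fun i hi => absurd hi (Nat.not_lt_zero i)⟩
  let ι : ↥A → ↥B := fun a => ⟨a.1, Finset.mem_union_left _ a.2⟩
  let j : ↥A → ↥Z := fun a => ⟨a.1, Finset.mem_union_left _ a.2⟩
  have hι : IsEmb 0 (fun _ : ↥A => ()) (fun _ => id) (fun _ : ↥B => ()) (fun _ => id) ι :=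
    ⟨fun _ _ => Iff.rfl, fun _ => rfl, fun i hi => absurd hi (Nat.not_lt_zero i)⟩
  have hj : IsEmb 0 (fun _ : ↥A => ()) (fun _ => id) (fun _ : ↥Z => ()) (fun _ => id) j :=
    ⟨fun _ _ => Iff.rfl, fun _ => rfl, fun i hi => absurd hi (Nat.not_lt_zero i)⟩
  obtain ⟨C, hC1, hC2, rC, sC, iZ, iB, e, h1, h2, h3, h4, h5, h6, he, hez⟩ :=
    embed_amalg (L := LU) (L' := LU) (fun _ _ _ _ _ => trivial) (le_refl 0) (fun p : Unit => p)
      (fun _ _ _ => trivial) hu hB hZ hι hj (fun z : ↥Z => z.1)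
      ⟨fun x y => Iff.rfl, fun x => rfl, fun i hi => absurd hi (Nat.not_lt_zero i)⟩
  obtain ⟨g, hg, _⟩ := hom_emb hu hu (fun b : ↥B => b.1) (fun b => e (iB b))
    (fun _ _ => Iff.rfl) (fun x y => by rw [he.le, h3.le]) (fun _ => rfl)
  refine ⟨g, mem_GA.2 ?_, ?_⟩
  · intro a ha
    have e1 := hg (ι ⟨a, ha⟩)
    rw [h4, hez] at e1
    exact e1
  · intro x hx y hy
    have hxB : x ∈ B := Finset.mem_union_right _ hx
    have hyZ : y ∈ Z := Finset.mem_union_right _ hy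
    have e1 : g x = e (iB ⟨x, hxB⟩) := hg ⟨x, hxB⟩
    have e2 : e (iZ ⟨y, hyZ⟩) = y := hez ⟨y, hyZ⟩
    refine ⟨?_, ?_⟩
    · intro h
      rw [e1, ← e2, he.le] at h
      obtain ⟨a, ha1, ha2⟩ := h6 _ _ h
      exact ⟨a.1, a.2, ha1, ha2⟩
    · intro h
      rw [e1, ← e2, he.le] at h
      obtain ⟨a, ha1, ha2⟩ := h5 _ _ h
      exact ⟨a.1, a.2, ha1, ha2⟩

theorem separate [Countable Ω] [Infinite Ω] (hu : Gen LU 0 (fun _ : Ω => ()) (fun _ => 1))
    (H : Subgroup (Ω ≃o Ω)) (htr : ∀ x y : Ω, ∃ h ∈ H, h x = y)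
    (A : Finset Ω) (hA : GA A ≤ H) : ∃ h ∈ H, ∀ a ∈ A, h a ∉ A := by
  classical
  have hex : ∃ n, ∃ h ∈ H, (A.filter (fun a => h a ∈ A)).card = n :=
    ⟨_, 1, H.one_mem, rfl⟩
  obtain ⟨h, hH, hn⟩ := Nat.find_spec hex
  refine ⟨h, hH, ?_⟩
  intro a0 ha0 hb
  obtain ⟨y, hy⟩ := Infinite.exists_notMem_finset A
  obtain ⟨h1, h1H, h1b⟩ := htr (h a0) y
  obtain ⟨k, hk, hfree⟩ := free_move hu A (A.image (⇑h)) (A.image (⇑h1⁻¹))
  have hkA := mem_GA.1 hk
  have hmin := Nat.find_min' hex ⟨h1 * k * h, H.mul_mem (H.mul_mem h1H (hA hk)) hH, rfl⟩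
  rw [← hn] at hmin
  have hlt : (A.filter (fun a => (h1 * k * h) a ∈ A)).card < (A.filter (fun a => h a ∈ A)).card := by
    apply Finset.card_lt_card
    refine ⟨?_, ?_⟩
    · intro a ha
      rw [Finset.mem_filter] at ha ⊢
      refine ⟨ha.1, ?_⟩
      have e1 : k (h a) ∈ A.image (⇑h1⁻¹) := by
        rw [Finset.mem_image]
        refine ⟨_, ha.2, ?_⟩
        rw [RelIso.mul_apply, RelIso.mul_apply, RelIso.inv_apply_self]
      have e2 := hfree (h a) (Finset.mem_image_of_mem _ ha.1) (k (h a)) e1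
      obtain ⟨a', ha', h3, h4⟩ := e2.1 le_rfl
      obtain ⟨a'', ha'', h5, h6⟩ := e2.2 le_rfl
      have : h a = a' := le_antisymm h3 (h4.trans (h5.trans h6))
      rw [this]
      exact ha'
    · intro hsub
      have : a0 ∈ A.filter (fun a => (h1 * k * h) a ∈ A) :=
        hsub (Finset.mem_filter.2 ⟨ha0, hb⟩)
      rw [Finset.mem_filter, RelIso.mul_apply, RelIso.mul_apply, hkA _ hb, h1b] at this
      exact hy this.2
  omega

theorem far [Countable Ω] (hu : Gen LU 0 (fun _ : Ω => ()) (fun _ => 1))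
    (H : Subgroup (Ω ≃o Ω)) (A : Finset Ω) (hA : GA A ≤ H) (h : Ω ≃o Ω) (hH : h ∈ H)
    (hsep : ∀ a ∈ A, h a ∉ A) (n : ℕ) [DecidableRel ((· < ·) : Ω → Ω → Prop)] :
    ∃ g ∈ H, (∀ a ∈ A, ∀ a' ∈ A, a ≤ g a' → n ≤ (A.filter (fun q => q < a')).card) ∧
      (∀ a ∈ A, ∀ a' ∈ A, g a' ≤ a → n ≤ (A.filter (fun q => a' < q)).card) := by
  classical
  induction n with
  | zero => exact ⟨1, H.one_mem, fun _ _ _ _ _ => Nat.zero_le _, fun _ _ _ _ _ => Nat.zero_le _⟩
  | succ n ih =>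
    obtain ⟨g, hg, ih1, ih2⟩ := ih
    obtain ⟨k, hk, hfree⟩ := free_move hu A (A.image (⇑h)) (A.image (⇑g⁻¹))
    obtain ⟨k', hk', hfree'⟩ := free_move hu A (A.image (⇑h⁻¹)) (A.image (⇑(g * k * h)⁻¹))
    refine ⟨g * k * h * k' * h⁻¹, ?_, ?_, ?_⟩
    · exact H.mul_mem (H.mul_mem (H.mul_mem (H.mul_mem hg (hA hk)) hH) (hA hk')) (H.inv_mem hH)
    · intro a ha a'' ha'' hle
      rw [RelIso.mul_apply, RelIso.mul_apply (g * k * h) k'] at hle
      have e1 : (g * k * h)⁻¹ a ≤ k' (h⁻¹ a'') := by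
        have := ((g * k * h)⁻¹).monotone hle
        rw [RelIso.inv_apply_self] at this
        exact this
      obtain ⟨a1, ha1, h1, h2⟩ := (hfree' (h⁻¹ a'') (Finset.mem_image_of_mem _ ha'')
        ((g * k * h)⁻¹ a) (Finset.mem_image_of_mem _ ha)).2 e1
      have h3 : h a1 ≤ a'' := by
        have := h.monotone h2
        rw [RelIso.apply_inv_self] at this
        exact this
      have h4 : g⁻¹ a ≤ k (h a1) := by
        have := (k * h).monotone h1
        rw [mul_assoc, mul_inv_rev, RelIso.mul_apply (k * h)⁻¹ g⁻¹, RelIso.apply_inv_self] at this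
        exact this
      obtain ⟨a2, ha2, h5, h6⟩ := (hfree (h a1) (Finset.mem_image_of_mem _ ha1)
        (g⁻¹ a) (Finset.mem_image_of_mem _ ha)).2 h4
      have h7 : a ≤ g a2 := by
        have := g.monotone h5
        rw [RelIso.apply_inv_self] at this
        exact this
      have h8 : a2 < a'' := by
        refine lt_of_lt_of_le (lt_of_le_of_ne h6 ?_) h3
        intro h9
        exact hsep a1 ha1 (h9 ▸ ha2)
      have h9 := ih1 a ha a2 ha2 h7
      refine Nat.succ_le_of_lt (lt_of_le_of_lt h9 (Finset.card_lt_card ⟨?_, ?_⟩))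
      · intro q hq
        rw [Finset.mem_filter] at hq ⊢
        exact ⟨hq.1, hq.2.trans h8⟩
      · intro hsub
        have := hsub (Finset.mem_filter.2 ⟨ha2, h8⟩)
        rw [Finset.mem_filter] at this
        exact absurd this.2 (lt_irrefl _)
    · intro a ha a'' ha'' hle
      rw [RelIso.mul_apply, RelIso.mul_apply (g * k * h) k'] at hle
      have e1 : k' (h⁻¹ a'') ≤ (g * k * h)⁻¹ a := by
        have := ((g * k * h)⁻¹).monotone hle
        rw [RelIso.inv_apply_self] at this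
        exact this
      obtain ⟨a1, ha1, h1, h2⟩ := (hfree' (h⁻¹ a'') (Finset.mem_image_of_mem _ ha'')
        ((g * k * h)⁻¹ a) (Finset.mem_image_of_mem _ ha)).1 e1
      have h3 : a'' ≤ h a1 := by
        have := h.monotone h1
        rw [RelIso.apply_inv_self] at this
        exact this
      have h4 : k (h a1) ≤ g⁻¹ a := by
        have := (k * h).monotone h2
        rw [mul_assoc, mul_inv_rev, RelIso.mul_apply (k * h)⁻¹ g⁻¹, RelIso.apply_inv_self] at this
        exact this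
      obtain ⟨a2, ha2, h5, h6⟩ := (hfree (h a1) (Finset.mem_image_of_mem _ ha1)
        (g⁻¹ a) (Finset.mem_image_of_mem _ ha)).1 h4
      have h7 : g a2 ≤ a := by
        have := g.monotone h6
        rw [RelIso.apply_inv_self] at this
        exact this
      have h8 : a'' < a2 := by
        refine lt_of_le_of_lt h3 (lt_of_le_of_ne h5 ?_)
        intro h9
        exact hsep a1 ha1 (h9 ▸ ha2)
      have h9 := ih2 a ha a2 ha2 h7
      refine Nat.succ_le_of_lt (lt_of_le_of_lt h9 (Finset.card_lt_card ⟨?_, ?_⟩))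
      · intro q hq
        rw [Finset.mem_filter] at hq ⊢
        exact ⟨hq.1, h8.trans hq.2⟩
      · intro hsub
        have := hsub (Finset.mem_filter.2 ⟨ha2, h8⟩)
        rw [Finset.mem_filter] at this
        exact absurd this.2 (lt_irrefl _)

theorem transitive_open [Countable Ω] [Infinite Ω]
    (hu : Gen LU 0 (fun _ : Ω => ()) (fun _ => 1))
    (H : Subgroup (Ω ≃o Ω)) (htr : ∀ x y : Ω, ∃ h ∈ H, h x = y)
    (A : Finset Ω) (hA : GA A ≤ H) : H = ⊤ := by
  classical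
  obtain ⟨h, hH, hsep⟩ := separate hu H htr A hA
  obtain ⟨g, hg, hg1, hg2⟩ := far hu H A hA h hH hsep (A.card + 1)
  have hno1 : ∀ a ∈ A, ∀ a' ∈ A, ¬ a ≤ g a' := by
    intro a ha a' ha' hle
    have h1 := hg1 a ha a' ha' hle
    have h2 : (A.filter (fun q => q < a')).card ≤ A.card := Finset.card_filter_le _ _
    omega
  have hno2 : ∀ a ∈ A, ∀ a' ∈ A, ¬ g a' ≤ a := by
    intro a ha a' ha' hle
    have h1 := hg2 a ha a' ha' hle
    have h2 : (A.filter (fun q => a' < q)).card ≤ A.card := Finset.card_filter_le _ _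
    omega
  rw [eq_top_iff]
  intro u _
  obtain ⟨k, hk, hfree⟩ := free_move hu A (A.image (⇑g)) (A.image (⇑u))
  have hkA := mem_GA.1 hk
  let w := k * g
  have hwH : w ∈ H := H.mul_mem (hA hk) hg
  have hw1 : ∀ a ∈ A, ∀ a' ∈ A, ¬ w a' ≤ a ∧ ¬ a ≤ w a' := by
    intro a ha a' ha'
    refine ⟨fun hle => ?_, fun hle => ?_⟩
    · apply hno2 a ha a' ha'
      rw [RelIso.mul_apply, ← hkA a ha, k.le_iff_le] at hle
      exact hle
    · apply hno1 a ha a' ha'
      rw [RelIso.mul_apply] at hle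
      have h1 : k a ≤ k (g a') := by rw [hkA a ha]; exact hle
      rw [k.le_iff_le] at h1
      exact h1
  have hw2 : ∀ a ∈ A, ∀ a' ∈ A, ¬ w a' ≤ u a ∧ ¬ u a ≤ w a' := by
    intro a ha a' ha'
    have e1 := hfree (g a') (Finset.mem_image_of_mem _ ha') (u a) (Finset.mem_image_of_mem _ ha)
    refine ⟨fun hle => ?_, fun hle => ?_⟩
    · obtain ⟨b, hb, h1, _⟩ := e1.1 hle
      exact hno2 b hb a' ha' h1
    · obtain ⟨b, hb, _, h1⟩ := e1.2 hle
      exact hno1 b hb a' ha' h1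
  let B : Finset Ω := A.image (⇑w)
  have hB1 : ∀ b ∈ B, b ∉ A := by
    intro b hb hbA
    rw [Finset.mem_image] at hb
    obtain ⟨a', ha', rfl⟩ := hb
    exact (hw1 _ hbA a' ha').1 le_rfl
  let E : Finset Ω := A ∪ B
  let e' : ↥E → Ω := fun x => if x.1 ∈ A then u x.1 else x.1
  have he' : ∀ x y : ↥E, e' x ≤ e' y ↔ x ≤ y := by
    intro x y
    by_cases hx : x.1 ∈ A
    · by_cases hy : y.1 ∈ A
      · simp only [e', if_pos hx, if_pos hy]
        rw [u.le_iff_le, Subtype.coe_le_coe]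
      · have hyB : y.1 ∈ B := (Finset.mem_union.1 y.2).resolve_left hy
        rw [Finset.mem_image] at hyB
        obtain ⟨a', ha', hya⟩ := hyB
        simp only [e', if_pos hx, if_neg hy]
        rw [← Subtype.coe_le_coe, ← hya]
        exact ⟨fun h => absurd h (hw2 x.1 hx a' ha').2, fun h => absurd h (hw1 x.1 hx a' ha').2⟩
    · have hxB : x.1 ∈ B := (Finset.mem_union.1 x.2).resolve_left hx
      rw [Finset.mem_image] at hxB
      obtain ⟨a', ha', hxa⟩ := hxB
      by_cases hy : y.1 ∈ A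
      · simp only [e', if_neg hx, if_pos hy]
        rw [← Subtype.coe_le_coe, ← hxa]
        exact ⟨fun h => absurd h (hw2 y.1 hy a' ha').1, fun h => absurd h (hw1 y.1 hy a' ha').1⟩
      · simp only [e', if_neg hx, if_neg hy]
        rw [Subtype.coe_le_coe]
  obtain ⟨v, hv, _⟩ := hom_emb hu hu (fun x : ↥E => x.1) e' (fun _ _ => Iff.rfl) he'
    (fun _ => rfl)
  have hvA : ∀ a ∈ A, v a = u a := by
    intro a ha
    have := hv ⟨a, Finset.mem_union_left _ ha⟩
    simp only [e', if_pos ha] at this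
    exact this
  have hvB : ∀ b ∈ B, v b = b := by
    intro b hb
    have := hv ⟨b, Finset.mem_union_right _ hb⟩
    simp only [e', if_neg (hB1 b hb)] at this
    exact this
  have hv1 : w⁻¹ * v * w ∈ H := by
    apply hA
    rw [mem_GA]
    intro a ha
    rw [RelIso.mul_apply, RelIso.mul_apply, hvB (w a) (Finset.mem_image_of_mem _ ha),
      RelIso.inv_apply_self]
  have hv2 : v ∈ H := by
    have h1 : w * (w⁻¹ * v * w) * w⁻¹ ∈ H := H.mul_mem (H.mul_mem hwH hv1) (H.inv_mem hwH)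
    have h2 : w * (w⁻¹ * v * w) * w⁻¹ = v := by group
    rwa [h2] at h1
  have hv3 : v⁻¹ * u ∈ H := by
    apply hA
    rw [mem_GA]
    intro a ha
    rw [RelIso.mul_apply, ← hvA a ha, RelIso.inv_apply_self]
  have h1 : v * (v⁻¹ * u) ∈ H := H.mul_mem hv2 hv3
  rwa [mul_inv_cancel_left] at h1

/-- The small index property of the universal poset, and its consequence for transitive
subgroups. -/
theorem small_index_open [Countable Ω]
    (huniv : ∀ (α : Type) [Finite α] [PartialOrder α], Nonempty (α ↪o Ω))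
    (hhom : ∀ (A B : Set Ω), A.Finite → ∀ f : A ≃o B, ∃ g : Ω ≃o Ω, ∀ a : A, g a.1 = (f a).1)
    (H : Subgroup (Ω ≃o Ω)) (hH : Cardinal.mk ((Ω ≃o Ω) ⧸ H) < Cardinal.continuum) :
    ∃ A : Finset Ω, ∀ g : Ω ≃o Ω, (∀ a ∈ A, g a = a) → g ∈ H := by
  have hu : Gen LU 0 (fun _ : Ω => ()) (fun _ => 1) := gen_unit huniv hhom _
  obtain ⟨ρ, h0⟩ := exists_rho hu
  obtain ⟨A, hA⟩ := open_rho h0 H hH
  exact ⟨A, fun g hg => open_all h0 hu H hH A hA (mem_GA.2 hg)⟩

theorem main [Countable Ω]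
    (huniv : ∀ (α : Type) [Finite α] [PartialOrder α], Nonempty (α ↪o Ω))
    (hhom : ∀ (A B : Set Ω), A.Finite → ∀ f : A ≃o B, ∃ g : Ω ≃o Ω, ∀ a : A, g a.1 = (f a).1)
    (H : Subgroup (Ω ≃o Ω)) (hH : Cardinal.mk ((Ω ≃o Ω) ⧸ H) < Cardinal.continuum)
    (htr : ∀ x y : Ω, ∃ h ∈ H, h x = y) : H = ⊤ := by
  have hinf : Infinite Ω := by
    by_contra h
    rw [not_infinite_iff_finite] at h
    let _ := Fintype.ofFinite Ω
    obtain ⟨e⟩ := huniv (Fin (Fintype.card Ω + 1))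
    have := Fintype.card_le_of_injective e e.injective
    simp at this
  have hu : Gen LU 0 (fun _ : Ω => ()) (fun _ => 1) := gen_unit huniv hhom _
  obtain ⟨A, hA⟩ := small_index_open huniv hhom H hH
  exact transitive_open hu H htr A (fun g hg => hA g (mem_GA.1 hg))

end Pool.Agent.Helper798.UPoset
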